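import Pool.Agent.Q185.CD.Lower

namespace Pool.Agent.Q185.CD

open Finset Filter
open scoped Classical Topology

variable {n : ℕ}

/-- The vertices that are not in a wall; walls are the last two vertices of each complete block of
length `L`. -/
noncomputable def UU (n L : ℕ) : Finset (Fin (2 * n)) :=
  univ.filter (fun v => ¬ (v.val / L < 2 * n / L ∧ L ≤ v.val % L + 2))

theorem mem_UU {L : ℕ} {v : Fin (2 * n)} :
    v ∈ UU n L ↔ ¬ (v.val / L < 2 * n / L ∧ L ≤ v.val % L + 2) := by
  simp [UU]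

/-- The partner inside a wall. -/
def ww (n L : ℕ) (v : Fin (2 * n)) : Fin (2 * n) :=
  if h : v.val + 1 < 2 * n ∧ v.val % L + 2 = L then ⟨v.val + 1, h.1⟩ else ⟨v.val - 1, by omega⟩

theorem wall_lt {L v N : ℕ} (_hL : 3 ≤ L) (h : v / L < N / L) (h2 : v % L + 2 = L) :
    v + 1 < N := by
  have h1 := Nat.div_add_mod v L
  have h3 : L * (N / L) ≤ N := Nat.mul_div_le N L
  have h4 : L * (v / L + 1) ≤ L * (N / L) := Nat.mul_le_mul_left L h
  have h5 : L * (v / L + 1) = L * (v / L) + L := by ring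
  omega

theorem ww_left {L : ℕ} (hL : 3 ≤ L) {v : Fin (2 * n)} (h : v.val / L < 2 * n / L)
    (h2 : v.val % L + 2 = L) : (ww n L v).val = v.val + 1 := by
  unfold ww
  rw [dif_pos ⟨wall_lt hL h h2, h2⟩]

theorem ww_right {L : ℕ} (_hL : 3 ≤ L) {v : Fin (2 * n)} (h2 : v.val % L + 1 = L) :
    (ww n L v).val = v.val - 1 := by
  unfold ww
  rw [dif_neg]
  rintro ⟨_, h⟩; omega

theorem divmod_succ {L v : ℕ} (hL : 3 ≤ L) (h2 : v % L + 2 = L) :
    (v + 1) / L = v / L ∧ (v + 1) % L + 1 = L := by
  have h1 := Nat.div_add_mod v L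
  have h3 : v + 1 = (v % L + 1) + L * (v / L) := by omega
  have h4 : (v + 1) / L = v / L := by
    rw [h3, Nat.add_mul_div_left _ _ (by omega), Nat.div_eq_of_lt (by omega), zero_add]
  refine ⟨h4, ?_⟩
  have h5 := Nat.div_add_mod (v + 1) L
  rw [h4] at h5
  omega

theorem divmod_pred {L v : ℕ} (hL : 3 ≤ L) (h2 : v % L + 1 = L) :
    1 ≤ v ∧ (v - 1) / L = v / L ∧ (v - 1) % L + 2 = L := by
  have h1 := Nat.div_add_mod v L
  have h0 : 1 ≤ v := by omega
  have h3 : v - 1 = (v % L - 1) + L * (v / L) := by omega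
  have h4 : (v - 1) / L = v / L := by
    rw [h3, Nat.add_mul_div_left _ _ (by omega), Nat.div_eq_of_lt (by omega), zero_add]
  refine ⟨h0, h4, ?_⟩
  have h5 := Nat.div_add_mod (v - 1) L
  rw [h4] at h5
  omega

theorem wall_cases {L : ℕ} (hL : 3 ≤ L) {v : Fin (2 * n)} (hv : v ∉ UU n L) :
    v.val / L < 2 * n / L ∧ (v.val % L + 2 = L ∨ v.val % L + 1 = L) := by
  rw [mem_UU, not_not] at hv
  have := Nat.mod_lt v.val (show 0 < L by omega)
  exact ⟨hv.1, by omega⟩

theorem ww_adj {L : ℕ} (hL : 3 ≤ L) : ∀ v, v ∉ UU n L → Adj v (ww n L v) := by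
  intro v hv
  obtain ⟨h1, h2 | h2⟩ := wall_cases hL hv
  · left; exact ww_left hL h1 h2
  · right
    have := ww_right hL h2
    have := divmod_pred hL h2
    omega

theorem ww_ok {L : ℕ} (hL : 3 ≤ L) : Ok (UU n L) (ww n L) := by
  refine ⟨fun v hv => ?_, fun v hv => ?_, fun v hv => (ww_adj hL v hv).ne.symm⟩
  · obtain ⟨h1, h2 | h2⟩ := wall_cases hL hv
    · have h3 := ww_left hL h1 h2
      have h4 := divmod_succ hL h2
      rw [mem_UU, not_not, h3, h4.1]
      exact ⟨h1, by omega⟩
    · have h3 := ww_right hL h2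
      have h4 := divmod_pred hL h2
      rw [mem_UU, not_not, h3, h4.2.1]
      exact ⟨h1, by omega⟩
  · obtain ⟨h1, h2 | h2⟩ := wall_cases hL hv
    · have h3 := ww_left hL h1 h2
      have h4 := divmod_succ hL h2
      have h5 : (ww n L v).val % L + 1 = L := by rw [h3]; exact h4.2
      have h6 := ww_right hL h5
      apply Fin.ext
      rw [h6, h3]; omega
    · have h3 := ww_right hL h2
      have h4 := divmod_pred hL h2
      have h5 : (ww n L v).val % L + 2 = L := by rw [h3]; exact h4.2.2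
      have h6 : (ww n L v).val / L < 2 * n / L := by rw [h3, h4.2.1]; exact h1
      have h7 := ww_left hL h6 h5
      apply Fin.ext
      rw [h7, h3]; omega

theorem UU_card {L : ℕ} (hL : 3 ≤ L) : (UU n L).card + 2 * (2 * n / L) = 2 * n := by
  have h1 : (univ \ UU n L : Finset (Fin (2 * n))).card = 2 * (2 * n / L) := by
    rw [mul_comm 2 (2 * n / L)]
    rw [← card_range (2 * n / L * 2)]
    apply card_bij (fun v _ => 2 * (v.val / L) + (v.val % L + 2 - L))
    · intro v hv
      rw [Finset.mem_sdiff] at hv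
      obtain ⟨h1, h2⟩ := wall_cases hL hv.2
      rw [mem_range]; omega
    · intro v hv u hu h
      rw [Finset.mem_sdiff] at hv hu
      obtain ⟨h1, h2⟩ := wall_cases hL hv.2
      obtain ⟨h3, h4⟩ := wall_cases hL hu.2
      have e1 : v.val / L = u.val / L := by omega
      have e2 : v.val % L = u.val % L := by omega
      apply Fin.ext
      rw [← Nat.div_add_mod v.val L, ← Nat.div_add_mod u.val L, e1, e2]
    · intro c hc
      rw [mem_range] at hc
      have h3 : L * (2 * n / L) ≤ 2 * n := Nat.mul_div_le _ L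
      have h4 : c / 2 + 1 ≤ 2 * n / L := by omega
      have h5 : L * (c / 2 + 1) ≤ L * (2 * n / L) := Nat.mul_le_mul_left L h4
      have h6 : L * (c / 2 + 1) = L * (c / 2) + L := by ring
      have hlt : L * (c / 2) + (L - 2 + c % 2) < 2 * n := by omega
      have hd : (L * (c / 2) + (L - 2 + c % 2)) / L = c / 2 := by
        rw [add_comm, Nat.add_mul_div_left _ _ (by omega), Nat.div_eq_of_lt (by omega), zero_add]
      have hm : (L * (c / 2) + (L - 2 + c % 2)) % L = L - 2 + c % 2 := by
        rw [Nat.mul_add_mod, Nat.mod_eq_of_lt (by omega)]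
      refine ⟨⟨L * (c / 2) + (L - 2 + c % 2), hlt⟩, ?_, ?_⟩
      · rw [Finset.mem_sdiff, mem_UU, not_not]
        refine ⟨mem_univ _, ?_, ?_⟩
        · simp only [hd]; omega
        · simp only [hm]; omega
      · simp only [hd, hm]; omega
  have h5 := card_sdiff_add_card_inter (univ : Finset (Fin (2 * n))) (UU n L)
  rw [univ_inter, card_univ, Fintype.card_fin] at h5
  omega

theorem block_size {L : ℕ} (hL : 3 ≤ L) (v : Fin (2 * n)) :
    ((UU n L).filter (fun u => u.val / L = v.val / L)).card ≤ L := by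
  refine le_trans (b := (range L).card) ?_ (card_range L).le
  apply card_le_card_of_injOn (fun u => u.val % L)
  · intro u _
    simp only [coe_range, Set.mem_Iio]
    exact Nat.mod_lt _ (by omega)
  · intro a ha b hb hab
    simp only [coe_filter, Set.mem_ofPred_eq] at ha hb hab
    apply Fin.ext
    rw [← Nat.div_add_mod a.val L, ← Nat.div_add_mod b.val L, ha.2, hb.2, hab]

theorem wall_between {L : ℕ} (hL : 3 ≤ L) {v u : Fin (2 * n)} (hv : v ∈ UU n L)
    (h : v.val / L < u.val / L) : ∃ z, z ∉ UU n L ∧ v < z ∧ z < u := by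
  have hu : u.val / L ≤ 2 * n / L := Nat.div_le_div_right u.isLt.le
  have hvn : v.val / L < 2 * n / L := by omega
  have hvm : v.val % L + 2 < L := by
    rw [mem_UU] at hv
    push Not at hv
    exact hv hvn
  have h1 := Nat.div_add_mod v.val L
  have h2 := Nat.div_add_mod u.val L
  have h4 : L * (v.val / L + 1) ≤ L * (u.val / L) := Nat.mul_le_mul_left L h
  have h5 : L * (v.val / L + 1) = L * (v.val / L) + L := by ring
  have hlt : L * (v.val / L) + (L - 2) < 2 * n := by omega
  refine ⟨⟨L * (v.val / L) + (L - 2), hlt⟩, ?_, ?_, ?_⟩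
  · rw [mem_UU, not_not]
    have hd : (L * (v.val / L) + (L - 2)) / L = v.val / L := by
      rw [add_comm, Nat.add_mul_div_left _ _ (by omega), Nat.div_eq_of_lt (by omega), zero_add]
    have hm : (L * (v.val / L) + (L - 2)) % L = L - 2 := by
      rw [Nat.mul_add_mod, Nat.mod_eq_of_lt (by omega)]
    simp only [hd, hm]
    omega
  · rw [Fin.lt_def]; simp only; omega
  · rw [Fin.lt_def]; simp only; omega

theorem crys_of_inn {L : ℕ} (hL : 3 ≤ L) {M : Diag n} (hM : M ∈ DD (UU n L) (ww n L) ∅)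
    (h0 : (inn (UU n L) (fun v => v.val / L) M).card = 0) : Crys M := by
  rw [crys_iff]
  intro v
  by_cases hv : v ∈ UU n L
  · right
    have hu := partner_mem (ww_ok hL) hM hv
    have hne : (M v).val / L ≠ v.val / L := by
      intro h
      have : v ∈ inn (UU n L) (fun v => v.val / L) M := mem_filter.mpr ⟨hv, h⟩
      rw [card_eq_zero.mp h0] at this
      simp at this
    rcases lt_or_gt_of_ne hne with h | h
    · obtain ⟨z, hz, h1, h2⟩ := wall_between hL hu h
      exact ⟨z, shortEnd_of_not_mem (ww_adj hL) hM hz, Or.inr ⟨h1, h2⟩⟩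
    · obtain ⟨z, hz, h1, h2⟩ := wall_between hL hv h
      exact ⟨z, shortEnd_of_not_mem (ww_adj hL) hM hz, Or.inl ⟨h1, h2⟩⟩
  · exact Or.inl (shortEnd_of_not_mem (ww_adj hL) hM hv)

/-- Lower bound for the number of crystallized diagrams. -/
theorem crys_lower {L : ℕ} (hL : 3 ≤ L) (hLn : 2 * L + 2 * n / L ≤ n) :
    (pm (n - 2 * n / L) : ℝ) * Real.exp (-(2 * L)) ≤
      (univ.filter (fun M : Diag n => Crys M)).card := by
  have hc := UU_card (n := n) hL
  have h1 := switch_lower (U := UU n L) (w := ww n L) (fun v => v.val / L) (ww_ok hL)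
    (m := n - 2 * n / L) (s := L) (by omega) (by omega) (by omega) (fun v _ => block_size hL v)
  refine h1.trans ?_
  have : ((DD (UU n L) (ww n L) ∅).filter
      (fun M => (inn (UU n L) (fun v => v.val / L) M).card = 0)).card ≤
      (univ.filter (fun M : Diag n => Crys M)).card := by
    apply card_le_card
    intro M hM
    rw [mem_filter] at hM
    rw [mem_filter]
    exact ⟨mem_univ _, crys_of_inn hL hM.1 hM.2⟩
  exact_mod_cast this

theorem pm_le_mul (n : ℕ) : ∀ K, K ≤ n → pm n ≤ pm (n - K) * (2 * n) ^ K := by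
  intro K
  induction K with
  | zero => intro _; simp
  | succ K ih =>
    intro hK
    refine (ih (by omega)).trans ?_
    have h2 : n - K = (n - (K + 1)) + 1 := by omega
    rw [h2, pm_succ, pow_succ]
    have h3 : 2 * (n - (K + 1)) + 1 ≤ 2 * n := by omega
    calc pm (n - (K + 1)) * (2 * (n - (K + 1)) + 1) * (2 * n) ^ K
        ≤ pm (n - (K + 1)) * (2 * n) * (2 * n) ^ K := by gcongr
      _ = _ := by ring

/-- The upper bound for the probability that `Y_n` is at least `κ`. -/
theorem probY_le {L κ : ℕ} (hn : 0 < n) (hL : 3 ≤ L) (hLn : 2 * L + 2 * n / L ≤ n)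
    (hκ : 2 * κ ≤ n) :
    ((univ.filter (fun M : Diag n => κ ≤ numShort M)).card : ℝ) /
      (univ.filter (fun M : Diag n => Crys M)).card ≤
      2 ^ κ / κ.factorial * (2 * n) ^ (2 * n / L) * Real.exp (2 * L) := by
  have hnr : (0 : ℝ) < n := by exact_mod_cast hn
  have h1 : ((univ.filter (fun M : Diag n => κ ≤ numShort M)).card : ℝ) ≤
      2 ^ κ / κ.factorial * pm n := by
    have e1 : ((univ.filter (fun M : Diag n => κ ≤ numShort M)).card : ℝ) ≤
        ((2 * n).choose κ : ℝ) * pm (n - κ) := by exact_mod_cast card_many κ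
    have e2 : ((2 * n).choose κ : ℝ) ≤ (2 * n) ^ κ / κ.factorial := by
      have := Nat.choose_le_pow_div (α := ℝ) κ (2 * n)
      push_cast at this
      exact this
    have e3 := pm_ratio' (n := n) (k := κ) (s := κ) (by omega) le_rfl
    have hκr : 2 * (κ : ℝ) ≤ n := by exact_mod_cast hκ
    have e4 : (1 / (2 * ((n : ℝ) - κ))) ^ κ ≤ (1 / n) ^ κ := by
      apply pow_le_pow_left₀
      · apply one_div_nonneg.mpr; linarith
      · apply one_div_le_one_div_of_le hnr; linarith
    calc ((univ.filter (fun M : Diag n => κ ≤ numShort M)).card : ℝ)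
        ≤ ((2 * n).choose κ : ℝ) * pm (n - κ) := e1
      _ ≤ ((2 * n) ^ κ / κ.factorial) * (pm n * (1 / n) ^ κ) := by
          apply mul_le_mul e2 _ (Nat.cast_nonneg _) (by positivity)
          refine e3.trans ?_
          apply mul_le_mul_of_nonneg_left e4 (Nat.cast_nonneg _)
      _ = 2 ^ κ / κ.factorial * pm n := by
          rw [mul_pow, one_div, inv_pow]
          field_simp
  have h2 := crys_lower hL hLn
  have h3 : (pm n : ℝ) ≤ pm (n - 2 * n / L) * (2 * n) ^ (2 * n / L) := by
    exact_mod_cast pm_le_mul n (2 * n / L) (by omega)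
  have h4 : (0 : ℝ) < pm (n - 2 * n / L) * Real.exp (-(2 * L)) := by
    have : (0 : ℝ) < pm (n - 2 * n / L) := by exact_mod_cast pm_pos _
    positivity
  rw [div_le_iff₀ (lt_of_lt_of_le h4 h2)]
  calc ((univ.filter (fun M : Diag n => κ ≤ numShort M)).card : ℝ)
      ≤ 2 ^ κ / κ.factorial * pm n := h1
    _ ≤ 2 ^ κ / κ.factorial * (pm (n - 2 * n / L) * (2 * n) ^ (2 * n / L)) := by gcongr
    _ = 2 ^ κ / κ.factorial * (2 * n) ^ (2 * n / L) * Real.exp (2 * L) *
        (pm (n - 2 * n / L) * Real.exp (-(2 * L))) := by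
        have : Real.exp (2 * L) * Real.exp (-(2 * L)) = 1 := by
          rw [← Real.exp_add]; simp
        calc 2 ^ κ / (κ.factorial : ℝ) * (pm (n - 2 * n / L) * (2 * n) ^ (2 * n / L))
            = 2 ^ κ / κ.factorial * (pm (n - 2 * n / L) * (2 * n) ^ (2 * n / L)) *
              (Real.exp (2 * L) * Real.exp (-(2 * L))) := by rw [this, mul_one]
          _ = _ := by ring
    _ ≤ _ := by gcongr

end Pool.Agent.Q185.CD
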