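import Pool.Agent.Q185.CD.Main

namespace Pool.Agent.Q185.CD

open Finset
open scoped Classical

variable {n : ℕ}

theorem pm_ratio {k : ℕ} (hk : k < n) : ∀ s, s ≤ k → pm (n - s) * (2 * (n - k)) ^ s ≤ pm n := by
  intro s
  induction s with
  | zero => intro _; simp
  | succ s ih =>
    intro hs
    have h1 := ih (by omega)
    have h2 : n - s = (n - (s + 1)) + 1 := by omega
    rw [h2, pm_succ] at h1
    refine le_trans ?_ h1
    rw [pow_succ]
    have h3 : 2 * (n - k) ≤ 2 * (n - (s + 1)) + 1 := by omega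
    calc pm (n - (s + 1)) * ((2 * (n - k)) ^ s * (2 * (n - k)))
        = (pm (n - (s + 1)) * (2 * (n - k))) * (2 * (n - k)) ^ s := by ring
      _ ≤ _ := by gcongr

theorem pm_ratio' {k : ℕ} (hk : k < n) {s : ℕ} (hs : s ≤ k) :
    (pm (n - s) : ℝ) ≤ pm n * (1 / (2 * ((n : ℝ) - k))) ^ s := by
  have h := pm_ratio hk s hs
  have h1 : ((pm (n - s) * (2 * (n - k)) ^ s : ℕ) : ℝ) ≤ pm n := by exact_mod_cast h
  push_cast [Nat.cast_sub hk.le] at h1
  have hpos : (0 : ℝ) < 2 * ((n : ℝ) - k) := by
    have : (k : ℝ) < n := by exact_mod_cast hk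
    linarith
  rw [one_div, inv_pow, ← div_eq_mul_inv, le_div_iff₀ (by positivity)]
  exact h1

theorem card_Diag : Fintype.card (Diag n) = pm n := by
  have h := card_DD_empty n (univ : Finset (Fin (2 * n))) id ⟨by simp, by simp, by simp⟩ (by simp)
  rw [← h, ← card_univ]
  congr 1
  ext M
  simp [mem_DD]

theorem ins_lower {U : Finset (Fin (2 * n))} {s : ℕ} (hU : U.card + 2 * s = 2 * n)
    (N : Finset (Fin (2 * n) × Fin (2 * n))) : N.card ≤ (ins N U).card + 8 * n * s := by
  have h0 : (univ \ U : Finset (Fin (2 * n))).card = 2 * s := by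
    have h5 := card_sdiff_add_card_inter (univ : Finset (Fin (2 * n))) U
    rw [univ_inter, card_univ, Fintype.card_fin] at h5
    omega
  have h1 : N ⊆ ins N U ∪ (((univ \ U) ×ˢ univ) ∪ (univ ×ˢ (univ \ U))) := by
    intro p hp
    by_cases h1 : p.1 ∈ U <;> by_cases h2 : p.2 ∈ U <;> simp [ins, hp, h1, h2]
  have h2 := card_le_card h1
  have h3 := card_union_le (ins N U) (((univ \ U) ×ˢ univ) ∪ (univ ×ˢ (univ \ U)))
  have h4 := card_union_le ((univ \ U : Finset (Fin (2 * n))) ×ˢ (univ : Finset (Fin (2 * n))))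
    ((univ : Finset (Fin (2 * n))) ×ˢ (univ \ U))
  rw [card_product, card_product, h0, card_univ, Fintype.card_fin] at h4
  have : 2 * s * (2 * n) + 2 * n * (2 * s) = 8 * n * s := by ring
  omega

/-- The number of left endpoints of walls before `v`. -/
noncomputable def idx (U : Finset (Fin (2 * n))) (w : Fin (2 * n) → Fin (2 * n))
    (v : Fin (2 * n)) : ℕ :=
  (univ.filter (fun z : Fin (2 * n) => z ∉ U ∧ (w z).val = z.val + 1 ∧ z < v)).card

theorem left_card {U : Finset (Fin (2 * n))} {w} (hok : Ok U w) {s : ℕ}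
    (hU : U.card + 2 * s = 2 * n) :
    (univ.filter (fun z : Fin (2 * n) => z ∉ U ∧ (w z).val = z.val + 1)).card ≤ s := by
  set L := univ.filter (fun z : Fin (2 * n) => z ∉ U ∧ (w z).val = z.val + 1) with hL
  set R := univ.filter (fun z : Fin (2 * n) => z ∉ U ∧ z.val = (w z).val + 1) with hR
  have h0 : (univ \ U : Finset (Fin (2 * n))).card = 2 * s := by
    have h5 := card_sdiff_add_card_inter (univ : Finset (Fin (2 * n))) U
    rw [univ_inter, card_univ, Fintype.card_fin] at h5
    omega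
  have h1 : L.card ≤ R.card := by
    apply card_le_card_of_injOn w
    · intro z hz
      simp only [hL, hR, coe_filter, mem_univ, true_and, Set.mem_ofPred_eq] at hz ⊢
      refine ⟨hok.mem z hz.1, ?_⟩
      rw [hok.inv z hz.1]; exact hz.2
    · intro a ha b hb hab
      simp only [hL, coe_filter, mem_univ, true_and, Set.mem_ofPred_eq] at ha hb
      have := congrArg w hab
      rwa [hok.inv a ha.1, hok.inv b hb.1] at this
  have h2 : Disjoint L R := by
    rw [disjoint_left]
    intro z hz hz'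
    simp only [hL, hR, mem_filter, mem_univ, true_and] at hz hz'
    omega
  have h3 : L ∪ R ⊆ univ \ U := by
    intro z hz
    simp only [hL, hR, mem_union, mem_filter, mem_univ, true_and] at hz
    simp only [mem_sdiff, mem_univ, true_and]
    tauto
  have h4 := card_le_card h3
  rw [card_union_of_disjoint h2, h0] at h4
  omega

theorem idx_le {U : Finset (Fin (2 * n))} {w} (hok : Ok U w) {s : ℕ}
    (hU : U.card + 2 * s = 2 * n) (v) : idx U w v ≤ s := by
  refine le_trans (card_le_card ?_) (left_card hok hU)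
  intro z hz
  simp only [mem_filter, mem_univ, true_and] at hz ⊢
  exact ⟨hz.1, hz.2.1⟩

theorem idx_lt {U : Finset (Fin (2 * n))} {w} (hok : Ok U w) (hadj : ∀ v, v ∉ U → Adj v (w v))
    {v u z : Fin (2 * n)} (_hv : v ∈ U) (hz : z ∉ U) (h1 : v < z) (h2 : z < u) :
    idx U w v < idx U w u := by
  have key : ∃ z', z' ∉ U ∧ (w z').val = z'.val + 1 ∧ v ≤ z' ∧ z' < u := by
    rcases hadj z hz with h | h
    · exact ⟨z, hz, h, h1.le, h2⟩
    · refine ⟨w z, hok.mem z hz, by rw [hok.inv z hz]; exact h, ?_, ?_⟩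
      · rw [Fin.le_def]; rw [Fin.lt_def] at h1; omega
      · rw [Fin.lt_def] at h2 ⊢; omega
  obtain ⟨z', hz', h3, h4, h5⟩ := key
  apply card_lt_card
  rw [ssubset_iff_of_subset]
  · refine ⟨z', ?_, ?_⟩
    · simp [hz', h3, h5]
    · simp only [mem_filter, mem_univ, true_and, not_and]
      intro _ _
      exact not_lt.mpr h4
  · intro t ht
    simp only [mem_filter, mem_univ, true_and] at ht ⊢
    exact ⟨ht.1, ht.2.1, ht.2.2.trans (h1.trans h2)⟩

/-- Pairs in the same bubble. -/
noncomputable def same (U : Finset (Fin (2 * n))) (w : Fin (2 * n) → Fin (2 * n)) :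
    Finset (Fin (2 * n) × Fin (2 * n)) :=
  (U ×ˢ U).filter (fun p => idx U w p.1 = idx U w p.2 ∧ p.1 ≠ p.2)

theorem same_card {U : Finset (Fin (2 * n))} {w} (hok : Ok U w) {s : ℕ}
    (hU : U.card + 2 * s = 2 * n) :
    (U.card : ℝ) ^ 2 / (s + 1) - U.card ≤ (same U w).card := by
  have h1 : ((U ×ˢ U).filter (fun p => idx U w p.1 = idx U w p.2)).card =
      ∑ b ∈ range (s + 1), (U.filter (fun v => idx U w v = b)).card ^ 2 := by
    rw [card_eq_sum_card_fiberwise (f := fun p => idx U w p.1) (t := range (s + 1))]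
    · apply sum_congr rfl
      intro b _
      rw [sq, ← card_product]
      congr 1
      ext ⟨x, y⟩
      simp only [mem_filter, mem_product]
      constructor
      · rintro ⟨⟨⟨h1, h2⟩, h3⟩, h4⟩
        exact ⟨⟨h1, h4⟩, h2, h3 ▸ h4⟩
      · rintro ⟨⟨h1, h2⟩, h3, h4⟩
        exact ⟨⟨⟨h1, h3⟩, h2.trans h4.symm⟩, h2⟩
    · intro p _
      simp only [coe_range, Set.mem_Iio]
      exact Nat.lt_succ_of_le (idx_le hok hU _)
  have h2 : U.card = ∑ b ∈ range (s + 1), (U.filter (fun v => idx U w v = b)).card := by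
    apply card_eq_sum_card_fiberwise
    intro p _
    simp only [coe_range, Set.mem_Iio]
    exact Nat.lt_succ_of_le (idx_le hok hU _)
  have h3 : (U.card : ℝ) ^ 2 ≤ (s + 1) *
      ((U ×ˢ U).filter (fun p => idx U w p.1 = idx U w p.2)).card := by
    rw [h1]
    have h4 := sq_sum_le_card_mul_sum_sq (s := range (s + 1))
      (f := fun b => ((U.filter (fun v => idx U w v = b)).card : ℝ))
    rw [card_range] at h4
    have h5 : (U.card : ℝ) = ∑ b ∈ range (s + 1), ((U.filter (fun v => idx U w v = b)).card : ℝ) := by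
      exact_mod_cast h2
    rw [← h5] at h4
    push_cast at h4 ⊢
    exact h4
  have h6 : ((U ×ˢ U).filter (fun p => idx U w p.1 = idx U w p.2)).card ≤
      (same U w).card + U.card := by
    have : (U ×ˢ U).filter (fun p => idx U w p.1 = idx U w p.2) ⊆
        same U w ∪ U.image (fun v => (v, v)) := by
      rintro ⟨x, y⟩ h
      simp only [mem_filter, mem_product, same, mem_union, mem_image, Prod.mk.injEq] at h ⊢
      by_cases hxy : x = y
      · right; exact ⟨x, h.1.1, rfl, hxy⟩
      · left; exact ⟨h.1, h.2, hxy⟩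
    refine (card_le_card this).trans ((card_union_le _ _).trans ?_)
    have := card_image_le (s := U) (f := fun v => (v, v))
    omega
  have h7 : (((U ×ˢ U).filter (fun p => idx U w p.1 = idx U w p.2)).card : ℝ) ≤
      (same U w).card + U.card := by exact_mod_cast h6
  have hs0 : (0 : ℝ) < s + 1 := by positivity
  rw [sub_le_iff_le_add, div_le_iff₀ hs0]
  nlinarith

theorem notNC_sub {U : Finset (Fin (2 * n))} {w} (hok : Ok U w)
    (hadj : ∀ v, v ∉ U → Adj v (w v)) :
    (DD U w ∅).filter (fun M => ¬ NC U M) ⊆ DD U w (same U w) := by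
  intro M hM
  rw [mem_filter] at hM
  rw [mem_DD]
  refine ⟨(mem_DD.mp hM.1).1, ?_⟩
  rintro ⟨v, u⟩ hp
  simp only [same, mem_filter, mem_product] at hp
  intro h
  have h' : M v = u := h
  apply hM.2
  refine ⟨v, hp.1.1, fun z hz hb => ?_⟩
  rw [h'] at hb
  rcases hb with hb | hb
  · have := idx_lt hok hadj hp.1.1 hz hb.1 hb.2
    omega
  · have := idx_lt hok hadj hp.1.2 hz hb.1 hb.2
    omega

theorem hitsum_le {k F0 : ℕ} {x E : ℝ} (hn : 0 < n) (hk : k < n) (hx : 4 ≤ x)
    (hE1 : E ≤ (2 * (F0 : ℝ) - 8 * n * k) / (8 * n))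
    (hE2 : E ≤ ((2 * (n : ℝ) - 2 * k) ^ 2 / (k + 1) - 2 * n) / (8 * n)) (t : ℕ) :
    ∑ M : Diag n, hit k t M ≤ pm n * Real.exp (-E) * x ^ k *
      (1 + 4 * (1 / (2 * ((n : ℝ) - k))) / x) ^ F0 := by
  have hkn : (k : ℝ) + 1 ≤ n := by exact_mod_cast hk
  have hnr : (0 : ℝ) < n := by exact_mod_cast hn
  have hq : (0 : ℝ) < 1 / (2 * ((n : ℝ) - k)) := by
    apply one_div_pos.mpr; linarith
  have hq1 : 1 / (2 * ((n : ℝ) - k)) ≤ 1 := by
    rw [div_le_one (by linarith)]; linarith
  have hexp : ∀ (s : ℕ) (U : Finset (Fin (2 * n))) (w) (N : Finset (Fin (2 * n) × Fin (2 * n))),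
      s ≤ k → Ok U w → U.card + 2 * s = 2 * n → (∀ a b, (a, b) ∈ N → (b, a) ∈ N) →
      (∀ a, (a, a) ∉ N) → E ≤ ((ins N U).card : ℝ) / (8 * n) →
      ((DD U w N).card : ℝ) ≤ pm n * Real.exp (-E) * (1 / (2 * ((n : ℝ) - k))) ^ s := by
    intro s U w N hs hok hU hsym hoff hE
    have h1 := card_DD_le N hsym hoff n (n - s) (by omega) U w hok (by omega)
    have h2 := pm_ratio' hk hs
    have h3 : Real.exp (-((ins N U).card : ℝ) / (8 * n)) ≤ Real.exp (-E) := by
      apply Real.exp_le_exp.mpr
      rw [neg_div]; linarith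
    calc ((DD U w N).card : ℝ) ≤ pm (n - s) * Real.exp (-((ins N U).card : ℝ) / (8 * n)) := h1
      _ ≤ (pm n * (1 / (2 * ((n : ℝ) - k))) ^ s) * Real.exp (-E) := by
          apply mul_le_mul h2 h3 (Real.exp_pos _).le (by positivity)
      _ = _ := by ring
  apply total_le hn hq (by linarith) (by linarith) (by positivity)
  · intro s U w N hs hok hU hsym hoff hN
    apply hexp s U w N hs hok hU hsym hoff
    refine hE1.trans ?_
    apply div_le_div_of_nonneg_right _ (by positivity)
    have h1 := ins_lower hU N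
    rw [hN] at h1
    have h2 : ((2 * F0 : ℕ) : ℝ) ≤ (((ins N U).card + 8 * n * s : ℕ) : ℝ) := by exact_mod_cast h1
    push_cast at h2
    have h3 : (8 : ℝ) * n * s ≤ 8 * n * k := by
      have : (s : ℝ) ≤ k := by exact_mod_cast hs
      nlinarith
    linarith
  · intro s U w hs hok hadj hU
    refine le_trans (by exact_mod_cast card_le_card (notNC_sub hok hadj)) (hexp s U w (same U w) hs
      hok hU ?_ ?_ ?_)
    · intro a b hab
      simp only [same, mem_filter, mem_product] at hab ⊢
      exact ⟨⟨hab.1.2, hab.1.1⟩, hab.2.1.symm, hab.2.2.symm⟩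
    · intro a ha
      simp [same] at ha
    · refine hE2.trans ?_
      apply div_le_div_of_nonneg_right _ (by positivity)
      have h0 : ins (same U w) U = same U w := by
        apply filter_true_of_mem
        intro p hp
        simp only [same, mem_filter, mem_product] at hp
        exact hp.1
      rw [h0]
      refine le_trans ?_ (same_card hok hU)
      have hs' : (s : ℝ) ≤ k := by exact_mod_cast hs
      have h2 : (U.card : ℝ) = 2 * n - 2 * s := by
        have : ((U.card + 2 * s : ℕ) : ℝ) = 2 * n := by rw [hU]; push_cast; ring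
        push_cast at this
        linarith
      have h3 : (2 * (n : ℝ) - 2 * k) ^ 2 / (k + 1) ≤ (U.card : ℝ) ^ 2 / (s + 1) := by
        apply div_le_div₀ (by positivity) _ (by positivity) (by linarith)
        apply pow_le_pow_left₀ (by linarith)
        rw [h2]; linarith
      have h4 : (U.card : ℝ) ≤ 2 * n := by
        rw [h2]; have : (0 : ℝ) ≤ s := by positivity
        linarith
      linarith

end Pool.Agent.Q185.CD
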