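import Pool.Agent.Q185.CD.Defs

namespace Pool.Agent.Q185.CD

open Finset
open scoped Classical

variable {n : ℕ}

theorem Diag.inv (M : Diag n) (v) : M (M v) = v := M.inv' v
theorem Diag.ne (M : Diag n) (v) : M v ≠ v := M.ne' v
theorem Diag.ext' {M M' : Diag n} (h : ∀ v, M v = M' v) : M = M' := Diag.ext (funext h)

/-- Diagrams that agree with `w` outside `U` and avoid the pairs of `N`. -/
noncomputable def DD (U : Finset (Fin (2 * n))) (w : Fin (2 * n) → Fin (2 * n))
    (N : Finset (Fin (2 * n) × Fin (2 * n))) : Finset (Diag n) :=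
  univ.filter (fun M => (∀ v, v ∉ U → M v = w v) ∧ ∀ p ∈ N, M p.1 ≠ p.2)

structure Ok (U : Finset (Fin (2 * n))) (w : Fin (2 * n) → Fin (2 * n)) : Prop where
  mem : ∀ v, v ∉ U → w v ∉ U
  inv : ∀ v, v ∉ U → w (w v) = v
  ne : ∀ v, v ∉ U → w v ≠ v

def upd (w : Fin (2 * n) → Fin (2 * n)) (v u : Fin (2 * n)) : Fin (2 * n) → Fin (2 * n) :=
  fun x => if x = v then u else if x = u then v else w x

def cut (U : Finset (Fin (2 * n))) (v u : Fin (2 * n)) : Finset (Fin (2 * n)) :=
  (U.erase v).erase u

theorem mem_cut {U : Finset (Fin (2 * n))} {v u x : Fin (2 * n)} :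
    x ∈ cut U v u ↔ x ≠ u ∧ x ≠ v ∧ x ∈ U := by
  simp [cut]

theorem card_cut {U : Finset (Fin (2 * n))} {v u : Fin (2 * n)} (hv : v ∈ U) (hu : u ∈ U)
    (h : v ≠ u) : (cut U v u).card + 2 = U.card := by
  have h1 : u ∈ U.erase v := by simp [hu, h.symm]
  have h2 := card_erase_of_mem h1
  have h3 := card_erase_of_mem hv
  have h4 : 0 < (U.erase v).card := card_pos.mpr ⟨u, h1⟩
  have h5 : 0 < U.card := card_pos.mpr ⟨v, hv⟩
  unfold cut
  omega

theorem Ok.upd {U : Finset (Fin (2 * n))} {w} (h : Ok U w) {v u : Fin (2 * n)} (hv : v ∈ U)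
    (hu : u ∈ U) (hvu : v ≠ u) : Ok (cut U v u) (upd w v u) := by
  have key : ∀ x, x ∉ cut U v u → x = v ∨ x = u ∨ (x ≠ v ∧ x ≠ u ∧ x ∉ U) := by
    intro x hx
    rw [mem_cut] at hx
    by_cases h1 : x = v
    · exact Or.inl h1
    · by_cases h2 : x = u
      · exact Or.inr (Or.inl h2)
      · exact Or.inr (Or.inr ⟨h1, h2, fun h3 => hx ⟨h2, h1, h3⟩⟩)
  have e1 : CD.upd w v u v = u := by simp [CD.upd]
  have e2 : CD.upd w v u u = v := by simp [CD.upd, hvu.symm]
  have e3 : ∀ x, x ≠ v → x ≠ u → CD.upd w v u x = w x := by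
    intro x h1 h2
    simp [CD.upd, h1, h2]
  have e4 : ∀ x, x ∉ U → w x ≠ v ∧ w x ≠ u := fun x hx =>
    ⟨fun h' => h.mem x hx (h' ▸ hv), fun h' => h.mem x hx (h' ▸ hu)⟩
  refine ⟨fun x hx => ?_, fun x hx => ?_, fun x hx => ?_⟩
  · rcases key x hx with rfl | rfl | ⟨h1, h2, h3⟩
    · rw [e1, mem_cut]; tauto
    · rw [e2, mem_cut]; tauto
    · rw [e3 x h1 h2, mem_cut]
      have := h.mem x h3
      tauto
  · rcases key x hx with rfl | rfl | ⟨h1, h2, h3⟩
    · rw [e1, e2]
    · rw [e2, e1]
    · rw [e3 x h1 h2, e3 _ (e4 x h3).1 (e4 x h3).2, h.inv x h3]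
  · rcases key x hx with rfl | rfl | ⟨h1, h2, h3⟩
    · rw [e1]; exact hvu.symm
    · rw [e2]; exact hvu
    · rw [e3 x h1 h2]; exact h.ne x h3

theorem mem_DD {U : Finset (Fin (2 * n))} {w N} {M : Diag n} :
    M ∈ DD U w N ↔ (∀ v, v ∉ U → M v = w v) ∧ ∀ p ∈ N, M p.1 ≠ p.2 := by
  simp [DD]

theorem partner_mem {U : Finset (Fin (2 * n))} {w N} (hok : Ok U w) {M : Diag n}
    (hM : M ∈ DD U w N) {v} (hv : v ∈ U) : M v ∈ U := by
  by_contra hc
  rw [mem_DD] at hM
  have h1 := hM.1 _ hc
  rw [M.inv] at h1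
  have h2 := hok.mem _ hc
  rw [← h1] at h2
  exact h2 hv

theorem sub_DD {U : Finset (Fin (2 * n))} {w N} {v u : Fin (2 * n)}
    {M : Diag n} (hM : M ∈ DD U w N) (h : M v = u) : M ∈ DD (cut U v u) (upd w v u) N := by
  rw [mem_DD] at hM ⊢
  refine ⟨fun x hx => ?_, hM.2⟩
  by_cases h1 : x = v
  · subst h1; simp [upd, h]
  · by_cases h2 : x = u
    · subst h2
      have : M x = v := by rw [← h, M.inv]
      simp [upd, h1, this]
    · simp only [upd, h1, h2, if_false]
      apply hM.1
      intro h3
      exact hx (mem_cut.mpr ⟨h2, h1, h3⟩)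

theorem of_sub_DD {U : Finset (Fin (2 * n))} {w} {v u : Fin (2 * n)} (hv : v ∈ U) (hu : u ∈ U)
    {M : Diag n} (hM : M ∈ DD (cut U v u) (upd w v u) ∅) : M ∈ DD U w ∅ ∧ M v = u := by
  rw [mem_DD] at hM
  constructor
  · rw [mem_DD]
    refine ⟨fun x hx => ?_, by simp⟩
    have h1 : x ≠ v := fun h => hx (h ▸ hv)
    have h2 : x ≠ u := fun h => hx (h ▸ hu)
    rw [hM.1 x (by rw [mem_cut]; tauto)]
    simp [upd, h1, h2]
  · rw [hM.1 v (by rw [mem_cut]; tauto)]
    simp [upd]

theorem card_DD_split {U : Finset (Fin (2 * n))} {w N} (hok : Ok U w) {v} (hv : v ∈ U) :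
    (DD U w N).card = ∑ u ∈ U.erase v, ((DD U w N).filter (fun M => M v = u)).card := by
  apply Finset.card_eq_sum_card_fiberwise
  intro M hM
  have := partner_mem hok hM hv
  simp only [coe_erase, Set.mem_sdiff, SetLike.mem_coe, Set.mem_singleton_iff]
  exact ⟨this, M.ne v⟩

/-- `pm m = (2m-1)!!`, the number of perfect matchings of `2m` points. -/
def pm (m : ℕ) : ℕ := ∏ i ∈ range m, (2 * i + 1)

theorem pm_succ (m : ℕ) : pm (m + 1) = pm m * (2 * m + 1) := by
  rw [pm, prod_range_succ]; rfl

theorem pm_pos (m : ℕ) : 0 < pm m := prod_pos (fun i _ => by omega)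

theorem card_DD_empty : ∀ (m : ℕ) (U : Finset (Fin (2 * n))) (w), Ok U w → U.card = 2 * m →
    (DD U w ∅).card = pm m := by
  intro m
  induction m with
  | zero =>
    intro U w hok hU
    have hU' : U = ∅ := card_eq_zero.mp (by omega)
    subst hU'
    have : DD ∅ w ∅ = {(⟨w, fun v => hok.inv v (by simp), fun v => hok.ne v (by simp)⟩ : Diag n)} := by
      ext M
      rw [mem_DD, mem_singleton]
      constructor
      · intro h
        exact Diag.ext' (fun v => h.1 v (by simp))
      · intro h
        subst h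
        exact ⟨fun v _ => rfl, by simp⟩
    rw [this, card_singleton]
    rfl
  | succ m ih =>
    intro U w hok hU
    have hne : U.Nonempty := card_pos.mp (by omega)
    obtain ⟨v, hv⟩ := hne
    rw [card_DD_split hok hv]
    have : ∀ u ∈ U.erase v, ((DD U w ∅).filter (fun M => M v = u)).card = pm m := by
      intro u hu
      have hu' : u ∈ U := mem_of_mem_erase hu
      have huv : v ≠ u := (ne_of_mem_erase hu).symm
      rw [← ih (cut U v u) (upd w v u) (hok.upd hv hu' huv) (by have := card_cut hv hu' huv; omega)]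
      congr 1
      ext M
      rw [mem_filter]
      exact ⟨fun h => sub_DD h.1 h.2, fun h => of_sub_DD hv hu' h⟩
    rw [sum_congr rfl this, sum_const, card_erase_of_mem hv, hU, pm_succ, smul_eq_mul, mul_comm]
    congr 1

/-- The pairs of `N` inside `U`. -/
noncomputable def ins (N : Finset (Fin (2 * n) × Fin (2 * n))) (U : Finset (Fin (2 * n))) :
    Finset (Fin (2 * n) × Fin (2 * n)) := N.filter (fun p => p.1 ∈ U ∧ p.2 ∈ U)

theorem card_DD_le (N : Finset (Fin (2 * n) × Fin (2 * n)))
    (hsym : ∀ a b, (a, b) ∈ N → (b, a) ∈ N) (hoff : ∀ a, (a, a) ∉ N) (K : ℕ) :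
    ∀ (m : ℕ), m ≤ K → ∀ (U : Finset (Fin (2 * n))) (w), Ok U w → U.card = 2 * m →
    ((DD U w N).card : ℝ) ≤ pm m * Real.exp (-((ins N U).card : ℝ) / (8 * K)) := by
  intro m
  induction m with
  | zero =>
    intro _ U w hok hU
    have hU' : U = ∅ := card_eq_zero.mp (by omega)
    subst hU'
    have h1 : (DD ∅ w N).card ≤ 1 := by
      rw [card_le_one]
      intro a ha b hb
      rw [mem_DD] at ha hb
      exact Diag.ext' (fun v => by rw [ha.1 v (by simp), hb.1 v (by simp)])
    have h2 : ins N (∅ : Finset (Fin (2 * n))) = ∅ := by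
      apply filter_false_of_mem
      intro p _ h
      simp at h
    rw [h2]
    simpa [pm] using h1
  | succ m ih =>
    intro hmK U w hok hU
    have hne : U.Nonempty := card_pos.mp (by omega)
    set deg : Fin (2 * n) → ℕ := fun v => (U.filter (fun u => (v, u) ∈ N)).card with hdeg
    obtain ⟨v, hv, hmax⟩ := exists_max_image U deg hne
    have hK : 0 < K := by omega
    have hKr : (0 : ℝ) < K := by exact_mod_cast hK
    -- the number of admissible partners
    have hcount : ((U.erase v).filter (fun u => (v, u) ∉ N)).card + deg v = 2 * m + 1 := by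
      have h1 := card_filter_add_card_filter_not (s := U.erase v) (fun u => (v, u) ∈ N)
      have h2 : (U.erase v).filter (fun u => (v, u) ∈ N) = U.filter (fun u => (v, u) ∈ N) := by
        ext u
        simp only [mem_filter, mem_erase]
        constructor
        · rintro ⟨⟨_, h⟩, h'⟩; exact ⟨h, h'⟩
        · rintro ⟨h, h'⟩
          refine ⟨⟨?_, h⟩, h'⟩
          rintro rfl
          exact hoff _ h'
      rw [h2, card_erase_of_mem hv, hU] at h1
      rw [hdeg]
      simp only
      omega
    -- the loss of pairs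
    have hloss : ∀ u ∈ U, v ≠ u → (ins N U).card ≤ (ins N (cut U v u)).card + 4 * deg v := by
      intro u hu hvu
      have hdu := hmax u hu
      have hsub : ins N U ⊆ ins N (cut U v u) ∪
          (((U.filter (fun x => (v, x) ∈ N)).image (fun x => (v, x))) ∪
          ((U.filter (fun x => (v, x) ∈ N)).image (fun x => (x, v))) ∪
          (((U.filter (fun x => (u, x) ∈ N)).image (fun x => (u, x))) ∪
          ((U.filter (fun x => (u, x) ∈ N)).image (fun x => (x, u))))) := by
        rintro ⟨a, b⟩ hab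
        simp only [ins, mem_filter] at hab
        obtain ⟨h1, h2, h3⟩ := hab
        simp only [mem_union, mem_image, mem_filter, ins, mem_cut, Prod.mk.injEq]
        by_cases hav : a = v
        · right; left; left; exact ⟨b, ⟨h3, hav ▸ h1⟩, hav.symm, rfl⟩
        by_cases hau : a = u
        · right; right; left; exact ⟨b, ⟨h3, hau ▸ h1⟩, hau.symm, rfl⟩
        by_cases hbv : b = v
        · right; left; right; exact ⟨a, ⟨h2, hsym _ _ (hbv ▸ h1)⟩, rfl, hbv.symm⟩
        by_cases hbu : b = u
        · right; right; right; exact ⟨a, ⟨h2, hsym _ _ (hbu ▸ h1)⟩, rfl, hbu.symm⟩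
        left
        exact ⟨h1, ⟨hau, hav, h2⟩, hbu, hbv, h3⟩
      have hc := card_le_card hsub
      have i1 : ((U.filter (fun x => (v, x) ∈ N)).image (fun x => (v, x))).card ≤ deg v :=
        card_image_le
      have i2 : ((U.filter (fun x => (v, x) ∈ N)).image (fun x => (x, v))).card ≤ deg v :=
        card_image_le
      have i3 : ((U.filter (fun x => (u, x) ∈ N)).image (fun x => (u, x))).card ≤ deg u :=
        card_image_le
      have i4 : ((U.filter (fun x => (u, x) ∈ N)).image (fun x => (x, u))).card ≤ deg u :=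
        card_image_le
      have j1 := card_union_le (ins N (cut U v u))
          (((U.filter (fun x => (v, x) ∈ N)).image (fun x => (v, x))) ∪
          ((U.filter (fun x => (v, x) ∈ N)).image (fun x => (x, v))) ∪
          (((U.filter (fun x => (u, x) ∈ N)).image (fun x => (u, x))) ∪
          ((U.filter (fun x => (u, x) ∈ N)).image (fun x => (x, u)))))
      have j2 := card_union_le (((U.filter (fun x => (v, x) ∈ N)).image (fun x => (v, x))) ∪
          ((U.filter (fun x => (v, x) ∈ N)).image (fun x => (x, v))))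
          (((U.filter (fun x => (u, x) ∈ N)).image (fun x => (u, x))) ∪
          ((U.filter (fun x => (u, x) ∈ N)).image (fun x => (x, u))))
      have j3 := card_union_le ((U.filter (fun x => (v, x) ∈ N)).image (fun x => (v, x)))
          ((U.filter (fun x => (v, x) ∈ N)).image (fun x => (x, v)))
      have j4 := card_union_le ((U.filter (fun x => (u, x) ∈ N)).image (fun x => (u, x)))
          ((U.filter (fun x => (u, x) ∈ N)).image (fun x => (x, u)))
      omega
    set D := deg v with hD
    set b : ℝ := pm m * Real.exp (-(((ins N U).card : ℝ) - 4 * D) / (8 * K)) with hb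
    have hb0 : 0 ≤ b := by positivity
    have hterm : ∀ u ∈ U.erase v, (((DD U w N).filter (fun M => M v = u)).card : ℝ) ≤
        if (v, u) ∈ N then 0 else b := by
      intro u hu
      have hu' : u ∈ U := mem_of_mem_erase hu
      have huv : v ≠ u := (ne_of_mem_erase hu).symm
      split_ifs with hN
      · have : (DD U w N).filter (fun M => M v = u) = ∅ := by
          apply filter_false_of_mem
          intro M hM h
          exact (mem_DD.mp hM).2 _ hN h
        rw [this]; simp
      · have h1 : ((DD U w N).filter (fun M => M v = u)).card ≤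
            (DD (cut U v u) (upd w v u) N).card := by
          apply card_le_card
          intro M hM
          rw [mem_filter] at hM
          exact sub_DD hM.1 hM.2
        have h2 := ih (by omega) (cut U v u) (upd w v u) (hok.upd hv hu' huv)
          (by have := card_cut hv hu' huv; omega)
        refine le_trans (by exact_mod_cast h1) (h2.trans ?_)
        rw [hb]
        apply mul_le_mul_of_nonneg_left _ (by positivity)
        apply Real.exp_le_exp.mpr
        have h3 : ((ins N U).card : ℝ) ≤ (ins N (cut U v u)).card + 4 * D := by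
          exact_mod_cast hloss u hu' huv
        rw [div_le_div_iff_of_pos_right (by positivity)]
        linarith
    have hsum : ((DD U w N).card : ℝ) ≤ ((2 * m + 1 : ℝ) - D) * b := by
      rw [card_DD_split hok hv, Nat.cast_sum]
      refine (sum_le_sum hterm).trans ?_
      rw [sum_ite, sum_const_zero, sum_const, nsmul_eq_mul, zero_add]
      apply le_of_eq
      congr 1
      have : ((((U.erase v).filter (fun u => (v, u) ∉ N)).card + deg v : ℕ) : ℝ) = 2 * m + 1 := by
        rw [hcount]; push_cast; ring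
      push_cast at this
      linarith
    refine hsum.trans ?_
    have hD1 : (D : ℝ) ≤ 2 * m + 1 := by
      have : D ≤ 2 * m + 1 := by omega
      exact_mod_cast this
    have hm0 : (0 : ℝ) < 2 * m + 1 := by positivity
    have hexp : b = pm m * (Real.exp (-((ins N U).card : ℝ) / (8 * K)) *
        Real.exp ((D : ℝ) / (2 * K))) := by
      rw [hb, ← Real.exp_add]
      congr 2
      field_simp
      ring
    have h4 : ((2 * m + 1 : ℝ) - D) * Real.exp ((D : ℝ) / (2 * K)) ≤ 2 * m + 1 := by
      have e1 : 1 - (D : ℝ) / (2 * m + 1) ≤ Real.exp (-((D : ℝ) / (2 * m + 1))) := by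
        have := Real.add_one_le_exp (-((D : ℝ) / (2 * m + 1)))
        linarith
      have e2 : Real.exp ((D : ℝ) / (2 * K)) ≤ Real.exp ((D : ℝ) / (2 * m + 1)) := by
        apply Real.exp_le_exp.mpr
        apply div_le_div_of_nonneg_left (by positivity) hm0
        have : 2 * m + 1 ≤ 2 * K := by omega
        exact_mod_cast this
      have e3 : ((2 * m + 1 : ℝ) - D) = (2 * m + 1) * (1 - (D : ℝ) / (2 * m + 1)) := by
        field_simp
      have e0 : 0 ≤ 1 - (D : ℝ) / (2 * m + 1) := by
        rw [sub_nonneg, div_le_one hm0]; exact hD1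
      calc ((2 * m + 1 : ℝ) - D) * Real.exp ((D : ℝ) / (2 * K))
          ≤ ((2 * m + 1) * (1 - (D : ℝ) / (2 * m + 1))) * Real.exp ((D : ℝ) / (2 * m + 1)) := by
            rw [e3]
            exact mul_le_mul_of_nonneg_left e2 (mul_nonneg hm0.le e0)
        _ ≤ (2 * m + 1) * Real.exp (-((D : ℝ) / (2 * m + 1))) * Real.exp ((D : ℝ) / (2 * m + 1)) := by
            gcongr
        _ = 2 * m + 1 := by
            rw [mul_assoc, ← Real.exp_add]; simp
    rw [hexp, pm_succ]
    push_cast
    calc ((2 * m + 1 : ℝ) - D) * (pm m * (Real.exp (-((ins N U).card : ℝ) / (8 * K)) *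
        Real.exp ((D : ℝ) / (2 * K))))
        = (pm m * Real.exp (-((ins N U).card : ℝ) / (8 * K))) *
          (((2 * m + 1 : ℝ) - D) * Real.exp ((D : ℝ) / (2 * K))) := by ring
      _ ≤ (pm m * Real.exp (-((ins N U).card : ℝ) / (8 * K))) * (2 * m + 1) := by
          apply mul_le_mul_of_nonneg_left h4 (by positivity)
      _ = _ := by ring

end Pool.Agent.Q185.CD
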