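import Mathlib

/-! Linear chord diagrams, the crystallization process and the quantities of the problem. -/

namespace Pool.Agent.Q185.CD

open Finset
open scoped Classical

/-- A linear chord diagram with `n` chords: a fixed point free involution of the `2n` vertices
(`M v` is the partner of `v`). -/
@[ext] structure Diag (n : ℕ) where
  /-- the partner of a vertex -/
  toFun : Fin (2 * n) → Fin (2 * n)
  inv' : ∀ v, toFun (toFun v) = v
  ne' : ∀ v, toFun v ≠ v

instance (n : ℕ) : CoeFun (Diag n) (fun _ => Fin (2 * n) → Fin (2 * n)) := ⟨Diag.toFun⟩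

noncomputable instance (n : ℕ) : Fintype (Diag n) :=
  Fintype.ofInjective Diag.toFun (fun _ _ h => Diag.ext h)
noncomputable instance (n : ℕ) : DecidableEq (Diag n) := Classical.decEq _

variable {n : ℕ}

/-- `v` and `u` are adjacent vertices of the line. -/
def Adj (v u : Fin (2 * n)) : Prop := u.val = v.val + 1 ∨ v.val = u.val + 1

/-- `v` is an endpoint of a short chord. -/
def ShortEnd (M : Diag n) (v : Fin (2 * n)) : Prop := Adj v (M v)

/-- The number of short chords (a short chord is counted at its left endpoint). -/
noncomputable def numShort (M : Diag n) : ℕ :=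
  (univ.filter (fun v : Fin (2 * n) => (M v).val = v.val + 1)).card

/-- A set of consecutive vertices without endpoint of a short chord. -/
def FreeRun (M : Diag n) (B : Finset (Fin (2 * n))) : Prop :=
  (∀ x ∈ B, ∀ z ∈ B, ∀ y, x ≤ y → y ≤ z → y ∈ B) ∧ ∀ x ∈ B, ¬ ShortEnd M x

/-- A bubble: a nonempty maximal set of consecutive vertices that contains no endpoint of a
short chord. -/
def IsBubble (M : Diag n) (B : Finset (Fin (2 * n))) : Prop :=
  B.Nonempty ∧ FreeRun M B ∧ ∀ B', B ⊆ B' → FreeRun M B' → B' = B

/-- The chord at `v` is a bridge of the bubble `B`: exactly one of its endpoints is in `B`. -/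
def IsBridge (M : Diag n) (B : Finset (Fin (2 * n))) (v : Fin (2 * n)) : Prop :=
  (v ∈ B ∧ M v ∉ B) ∨ (v ∉ B ∧ M v ∈ B)

/-- A diagram is crystallized if every chord is short or a bridge of some bubble. -/
def Crys (M : Diag n) : Prop :=
  ∀ v, ShortEnd M v ∨ ∃ B, IsBubble M B ∧ IsBridge M B v

/-- The image of a diagram under the transposition `(i j)` of positions. -/
def swapD (i j : Fin (2 * n)) (M : Diag n) : Diag n where
  toFun v := Equiv.swap i j (M (Equiv.swap i j v))
  inv' v := by simp [M.inv']
  ne' v h := by
    have h2 := congrArg (Equiv.swap i j) h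
    simp only [Equiv.swap_apply_self] at h2
    exact M.ne' _ h2

/-- The result of step 3: if `j` is not an endpoint of a short chord, exchange the positions of
`i` and `j`, otherwise leave the diagram unchanged. -/
noncomputable def move (M : Diag n) (i j : Fin (2 * n)) : Diag n :=
  if ShortEnd M j then M else swapD i j M

/-- The endpoints of non-short chords. -/
noncomputable def loose (M : Diag n) : Finset (Fin (2 * n)) := univ.filter (fun v => ¬ ShortEnd M v)

/-- The vertices adjacent to `i`. -/
noncomputable def nbr (i : Fin (2 * n)) : Finset (Fin (2 * n)) := univ.filter (fun j => Adj i j)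

/-- Transition matrix of the crystallization process: a crystallized diagram is absorbing;
otherwise `i` is uniform among the endpoints of non-short chords, `j` is uniform among the
neighbours of `i`, and the new diagram is `move M i j`. -/
noncomputable def trans (n : ℕ) : Matrix (Diag n) (Diag n) ℝ := fun M M' =>
  if Crys M then (if M' = M then 1 else 0)
  else (∑ i ∈ loose M, (∑ j ∈ nbr i, if M' = move M i j then (1 : ℝ) else 0) / (nbr i).card)
    / (loose M).card

/-- The probability of the event: `T ≤ t` and `X_n ∈ A`, for a uniform initial diagram. -/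
noncomputable def lawX (n t : ℕ) (A : Set ℕ) : ℝ :=
  (∑ M : Diag n, ∑ M' ∈ univ.filter (fun M' : Diag n => Crys M' ∧ numShort M' ∈ A),
    (trans n ^ t) M M') / Fintype.card (Diag n)

/-- The probability of the event: `T < ∞` and `X_n ∈ A`. -/
noncomputable def probX (n : ℕ) (A : Set ℕ) : ℝ := ⨆ t, lawX n t A

/-- The probability that `Y_n ∈ A`, for a uniform crystallized diagram. -/
noncomputable def probY (n : ℕ) (A : Set ℕ) : ℝ :=
  ((univ.filter (fun M : Diag n => Crys M ∧ numShort M ∈ A)).card : ℝ) /
    (univ.filter (fun M : Diag n => Crys M)).card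

end Pool.Agent.Q185.CD
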