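import Pool.Agent.Q185.CD.BoundX

namespace Pool.Agent.Q185.CD

open Finset Filter
open scoped Classical Topology

theorem lawX_eq (n t k : ℕ) (A : Set ℕ) (hA : ∀ j, j ∈ A ↔ j ≤ k) :
    lawX n t A = (∑ M : Diag n, hit k t M) / pm n := by
  unfold lawX hit
  rw [card_Diag]
  congr 1
  apply sum_congr rfl
  intro M _
  apply sum_congr _ (fun _ _ => rfl)
  ext M'
  simp [hA]

theorem lawX_nonneg (n t k : ℕ) (A : Set ℕ) (hA : ∀ j, j ∈ A ↔ j ≤ k) : 0 ≤ lawX n t A := by
  rw [lawX_eq n t k A hA]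
  exact div_nonneg (sum_nonneg (fun M _ => hit_nonneg k t M)) (Nat.cast_nonneg _)

theorem lawX_small (n t : ℕ) (hn : 100 ≤ n) :
    lawX n t {j | (j : ℝ) ≤ Real.sqrt n / 10} ≤ Real.exp (-(9 / 10) * Real.sqrt n) := by
  set r := Real.sqrt n with hr
  have hnr : (100 : ℝ) ≤ n := by exact_mod_cast hn
  have hr2 : r ^ 2 = n := Real.sq_sqrt (by positivity)
  have hr10 : 10 ≤ r := by
    rw [hr]; apply Real.le_sqrt_of_sq_le; norm_num; linarith
  set k := ⌊r / 10⌋₊ with hk
  have hk1 : (k : ℝ) ≤ r / 10 := Nat.floor_le (by positivity)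
  set R := ⌊r⌋₊ with hR
  have hR1 : (R : ℝ) ≤ r := Nat.floor_le (by positivity)
  have hR2 : r < R + 1 := Nat.lt_floor_add_one r
  have hrn : r ≤ n / 10 := by rw [← hr2]; nlinarith
  have hkn : k < n := by
    have : (k : ℝ) < n := by linarith
    exact_mod_cast this
  set F0 := 10 * n * R with hF0
  have hF0r : (F0 : ℝ) = 10 * n * R := by rw [hF0]; push_cast; ring
  have hn0 : (0 : ℝ) < n := by linarith
  rw [lawX_eq n t k _ (by
    intro j
    rw [Set.mem_ofPred_eq, hk, Nat.le_floor_iff (by positivity)])]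
  have h := hitsum_le (n := n) (k := k) (F0 := F0) (x := 32) (E := 2 * r) (by omega) hkn
    (by norm_num) ?_ ?_ t
  · rw [div_le_iff₀ (by exact_mod_cast pm_pos n)]
    refine h.trans ?_
    have h1 : (32 : ℝ) ^ k ≤ Real.exp ((7 / 20) * r) := by
      have e1 : (32 : ℝ) ^ k = Real.exp (k * Real.log 32) := by
        rw [mul_comm, Real.exp_mul, Real.exp_log (by norm_num), Real.rpow_natCast]
      have e2 : Real.log 32 = 5 * Real.log 2 := by
        rw [show (32 : ℝ) = 2 ^ (5 : ℕ) by norm_num, Real.log_pow]; norm_num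
      rw [e1, e2]
      apply Real.exp_le_exp.mpr
      have e3 := Real.log_two_lt_d9
      have e4 : 0 < Real.log 2 := Real.log_pos (by norm_num)
      have e5 : (0 : ℝ) ≤ k := by positivity
      nlinarith
    have h2 : (1 + 4 * (1 / (2 * ((n : ℝ) - k))) / 32) ^ F0 ≤ Real.exp ((7 / 10) * r) := by
      have hnk : (9 / 10) * (n : ℝ) ≤ n - k := by linarith
      have e1 : 1 + 4 * (1 / (2 * ((n : ℝ) - k))) / 32 ≤ Real.exp (5 / 72 / n) := by
        have e2 : 1 / (2 * ((n : ℝ) - k)) ≤ 1 / (2 * ((9 / 10) * n)) :=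
          one_div_le_one_div_of_le (by positivity) (by linarith)
        have e3 : 4 * (1 / (2 * ((9 / 10) * (n : ℝ)))) / 32 = 5 / 72 / n := by
          field_simp; norm_num
        have e4 := Real.add_one_le_exp (5 / 72 / (n : ℝ))
        calc 1 + 4 * (1 / (2 * ((n : ℝ) - k))) / 32 ≤ 1 + 4 * (1 / (2 * ((9 / 10) * n))) / 32 := by
              gcongr
          _ = 5 / 72 / n + 1 := by rw [e3]; ring
          _ ≤ _ := e4
      have e0 : (0 : ℝ) ≤ 1 + 4 * (1 / (2 * ((n : ℝ) - k))) / 32 := by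
        have : (0 : ℝ) < n - k := by linarith
        positivity
      calc (1 + 4 * (1 / (2 * ((n : ℝ) - k))) / 32) ^ F0 ≤ Real.exp (5 / 72 / n) ^ F0 :=
            pow_le_pow_left₀ e0 e1 _
        _ = Real.exp (F0 * (5 / 72 / n)) := by rw [← Real.exp_nat_mul]
        _ ≤ _ := by
            apply Real.exp_le_exp.mpr
            rw [hF0r]
            have : 10 * (n : ℝ) * R * (5 / 72 / n) = (50 / 72) * R := by
              field_simp
              ring
            rw [this]
            linarith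
    have e0 : (0 : ℝ) ≤ 1 + 4 * (1 / (2 * ((n : ℝ) - k))) / 32 := by
      have : (0 : ℝ) < n - k := by linarith
      positivity
    calc pm n * Real.exp (-(2 * r)) * (32 : ℝ) ^ k *
        (1 + 4 * (1 / (2 * ((n : ℝ) - k))) / 32) ^ F0
        ≤ pm n * Real.exp (-(2 * r)) * Real.exp ((7 / 20) * r) * Real.exp ((7 / 10) * r) := by
          gcongr
      _ = pm n * Real.exp (-(2 * r) + (7 / 20) * r + (7 / 10) * r) := by
          rw [Real.exp_add, Real.exp_add]; ring
      _ ≤ Real.exp (-(9 / 10) * r) * pm n := by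
          rw [mul_comm]
          apply mul_le_mul_of_nonneg_right _ (Nat.cast_nonneg _)
          apply Real.exp_le_exp.mpr
          linarith
  · rw [le_div_iff₀ (by positivity), hF0r]
    nlinarith
  · rw [le_div_iff₀ (by positivity)]
    have hk0 : (0 : ℝ) < k + 1 := by positivity
    rw [le_sub_iff_add_le, le_div_iff₀ hk0]
    have h1 : (k : ℝ) + 1 ≤ r / 5 := by linarith
    have h2 : (9 / 5) * (n : ℝ) ≤ 2 * n - 2 * k := by linarith
    have h3 : ((9 / 5) * (n : ℝ)) ^ 2 ≤ (2 * n - 2 * k) ^ 2 := by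
      apply pow_le_pow_left₀ (by positivity) h2
    refine le_trans ?_ h3
    calc (2 * r * (8 * n) + 2 * n) * (k + 1) ≤ (2 * r * (8 * n) + 2 * n) * (r / 5) := by
          gcongr
      _ ≤ ((9 / 5) * (n : ℝ)) ^ 2 := by
          have : (n : ℝ) * n = n * r ^ 2 := by rw [hr2]
          nlinarith [mul_pos hn0 (show (0:ℝ) < r by linarith)]

theorem probX_nonneg (n k : ℕ) (A : Set ℕ) (hA : ∀ j, j ∈ A ↔ j ≤ k) : 0 ≤ probX n A :=
  Real.iSup_nonneg (fun t => lawX_nonneg n t k A hA)

theorem tendsto_probX :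
    Tendsto (fun n : ℕ => probX n {j | (j : ℝ) ≤ Real.sqrt n / 10}) atTop (𝓝 0) := by
  have h1 : Tendsto (fun n : ℕ => Real.exp (-(9 / 10) * Real.sqrt n)) atTop (𝓝 0) := by
    apply Real.tendsto_exp_atBot.comp
    apply Tendsto.const_mul_atTop_of_neg (by norm_num)
    exact Real.tendsto_sqrt_atTop.comp tendsto_natCast_atTop_atTop
  refine squeeze_zero' ?_ ?_ h1
  · filter_upwards with n
    apply probX_nonneg n ⌊Real.sqrt n / 10⌋₊
    intro j
    rw [Set.mem_ofPred_eq, Nat.le_floor_iff (by positivity)]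
  · filter_upwards [eventually_ge_atTop 100] with n hn
    exact ciSup_le (fun t => lawX_small n t hn)

end Pool.Agent.Q185.CD
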