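import Pool.Agent.Q185.CD.Blocks

namespace Pool.Agent.Q185.CD

open Finset Filter
open scoped Classical Topology

theorem fact_bound (κ : ℕ) (hκ : 0 < κ) :
    (1 : ℝ) / κ.factorial ≤ Real.exp (κ - κ * Real.log κ) := by
  have h1 := Real.pow_div_factorial_le_exp (κ : ℝ) (Nat.cast_nonneg _) κ
  have hκr : (0 : ℝ) < κ := by exact_mod_cast hκ
  have h2 : (κ : ℝ) ^ κ = Real.exp (κ * Real.log κ) := by
    rw [mul_comm, Real.exp_mul, Real.exp_log hκr, Real.rpow_natCast]
  rw [Real.exp_sub, ← h2]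
  rw [le_div_iff₀ (by positivity)]
  calc 1 / (κ.factorial : ℝ) * κ ^ κ = κ ^ κ / κ.factorial := by ring
    _ ≤ _ := h1

/-- For every `ε` in `(0,1]` the probability of `Y_n ≥ ε sqrt n` is at most `exp (- sqrt n)` for
large `n`. -/
theorem probY_small {ε : ℝ} (hε : 0 < ε) (hε1 : ε ≤ 1) :
    ∀ᶠ n : ℕ in atTop, probY n {j | ε * Real.sqrt n ≤ j} ≤ Real.exp (-Real.sqrt n) := by
  set A : ℝ := 16 / ε with hA
  have hA16 : 16 ≤ A := by rw [hA, le_div_iff₀ hε]; linarith
  have hsq : Tendsto (fun n : ℕ => Real.sqrt n) atTop atTop :=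
    Real.tendsto_sqrt_atTop.comp tendsto_natCast_atTop_atTop
  set C : ℝ := 8 + 4 * A + 2 * |Real.log ε| with hC
  have hev1 : ∀ᶠ n : ℕ in atTop, 100 * A ≤ Real.sqrt n := hsq.eventually_ge_atTop _
  have hev2 : ∀ᶠ n : ℕ in atTop, 2 * C / ε ≤ Real.log (Real.sqrt n) :=
    (Real.tendsto_log_atTop.comp hsq).eventually_ge_atTop _
  have hev3 : ∀ᶠ n : ℕ in atTop, 1 / ε ≤ Real.sqrt n := hsq.eventually_ge_atTop _
  filter_upwards [hev1, hev2, hev3, eventually_ge_atTop 1] with n h1 h2 h3 h4
  set r := Real.sqrt n with hr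
  have hn0 : (0 : ℝ) < n := by exact_mod_cast h4
  have hr2 : r ^ 2 = n := Real.sq_sqrt hn0.le
  have hr1 : 1600 ≤ r := by linarith
  have hεr : 1 ≤ ε * r := by
    rw [div_le_iff₀ hε] at h3; linarith
  set κ := ⌈ε * r⌉₊ with hκ
  have hκ1 : ε * r ≤ κ := Nat.le_ceil _
  have hκ2 : (κ : ℝ) < ε * r + 1 := Nat.ceil_lt_add_one (by positivity)
  have hκ0 : 0 < κ := by
    have : (0 : ℝ) < κ := by linarith
    exact_mod_cast this
  set L := ⌈A * r⌉₊ with hL
  have hL1 : A * r ≤ L := Nat.le_ceil _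
  have hL2 : (L : ℝ) < A * r + 1 := Nat.ceil_lt_add_one (by positivity)
  have hAr : 1600 ≤ A * r := by nlinarith
  have hL3 : 3 ≤ L := by
    have : (3 : ℝ) ≤ L := by linarith
    exact_mod_cast this
  have hK : ((2 * n / L : ℕ) : ℝ) ≤ (ε / 8) * r := by
    refine (Nat.cast_div_le).trans ?_
    push_cast
    rw [div_le_iff₀ (by linarith)]
    calc 2 * (n : ℝ) = (ε / 8) * r * (A * r) := by
          rw [hA, ← hr2]; field_simp; ring
      _ ≤ _ := by gcongr
  have hrn : r * 1600 ≤ n := by rw [← hr2]; nlinarith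
  have hArn : A * r ≤ n / 100 := by
    rw [← hr2]; nlinarith
  have hLn : 2 * L + 2 * n / L ≤ n := by
    have : ((2 * L + 2 * n / L : ℕ) : ℝ) ≤ n := by
      push_cast
      have : (ε / 8) * r ≤ r := by nlinarith
      linarith
    exact_mod_cast this
  have hκn : 2 * κ ≤ n := by
    have : ((2 * κ : ℕ) : ℝ) ≤ n := by
      push_cast
      have : ε * r ≤ r := by nlinarith
      linarith
    exact_mod_cast this
  have hset : probY n {j | ε * r ≤ j} ≤
      ((univ.filter (fun M : Diag n => κ ≤ numShort M)).card : ℝ) /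
      (univ.filter (fun M : Diag n => Crys M)).card := by
    unfold probY
    apply div_le_div_of_nonneg_right _ (Nat.cast_nonneg _)
    have : (univ.filter (fun M : Diag n => Crys M ∧ numShort M ∈ {j : ℕ | ε * r ≤ j})).card ≤
        (univ.filter (fun M : Diag n => κ ≤ numShort M)).card := by
      apply card_le_card
      intro M hM
      simp only [mem_filter, mem_univ, true_and, Set.mem_ofPred_eq] at hM ⊢
      exact Nat.ceil_le.mpr hM.2
    exact_mod_cast this
  refine hset.trans ((probY_le (by omega) hL3 hLn hκn).trans ?_)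
  -- exponents
  have hlr : 0 < Real.log r := Real.log_pos (by linarith)
  have e1 : (2 : ℝ) ^ κ ≤ Real.exp κ := by
    have : (2 : ℝ) ≤ Real.exp 1 := by
      have := Real.add_one_le_exp (1 : ℝ); linarith
    calc (2 : ℝ) ^ κ ≤ (Real.exp 1) ^ κ := pow_le_pow_left₀ (by norm_num) this _
      _ = Real.exp κ := by rw [← Real.exp_nat_mul, mul_one]
  have e2 := fact_bound κ hκ0
  have e3 : ((2 : ℝ) * n) ^ (2 * n / L) ≤ Real.exp ((ε / 8) * r * (1 + 2 * Real.log r)) := by
    have f1 : ((2 : ℝ) * n) ^ (2 * n / L) = Real.exp ((2 * n / L : ℕ) * Real.log (2 * n)) := by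
      rw [mul_comm ((2 * n / L : ℕ) : ℝ), Real.exp_mul, Real.exp_log (by positivity),
        Real.rpow_natCast]
    have f2 : Real.log (2 * n) ≤ 1 + 2 * Real.log r := by
      rw [Real.log_mul (by norm_num) hn0.ne', ← hr2, Real.log_pow]
      have := Real.log_two_lt_d9
      push_cast
      linarith
    rw [f1]
    apply Real.exp_le_exp.mpr
    calc ((2 * n / L : ℕ) : ℝ) * Real.log (2 * n) ≤ ((2 * n / L : ℕ) : ℝ) * (1 + 2 * Real.log r) := by
          gcongr
      _ ≤ _ := by gcongr
  have hlogκ : Real.log ε + Real.log r ≤ Real.log κ := by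
    rw [← Real.log_mul hε.ne' (by linarith)]
    exact Real.log_le_log (by positivity) hκ1
  have hκκ : (κ : ℝ) ≤ 2 * (ε * r) := by linarith
  have hmain : (κ : ℝ) + (κ - κ * Real.log κ) + (ε / 8) * r * (1 + 2 * Real.log r) + 2 * L ≤ -r := by
    have g0 : |Real.log ε| ≥ -Real.log ε := neg_le_abs _
    have g1 : (κ : ℝ) * Real.log κ ≥ κ * (Real.log ε + Real.log r) := by gcongr
    have g2 : (κ : ℝ) * Real.log r ≥ ε * r * Real.log r := by gcongr
    have g3 : (κ : ℝ) * Real.log ε ≥ -(2 * (ε * r) * |Real.log ε|) := by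
      have : (κ : ℝ) * (-|Real.log ε|) ≤ κ * Real.log ε := by
        apply mul_le_mul_of_nonneg_left _ (Nat.cast_nonneg _)
        linarith
      have h5 : (κ : ℝ) * |Real.log ε| ≤ 2 * (ε * r) * |Real.log ε| := by gcongr
      linarith
    have g4 : ε * r ≤ r := by nlinarith
    have g5 : 2 * (ε * r) * |Real.log ε| ≤ 2 * r * |Real.log ε| := by gcongr
    have g6 : C * r ≤ (1 / 2) * (ε * r * Real.log r) := by
      rw [div_le_iff₀ hε] at h2
      have : C ≤ (1 / 2) * (Real.log r * ε) := by linarith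
      calc C * r ≤ (1 / 2) * (Real.log r * ε) * r := by gcongr
        _ = _ := by ring
    have g7 : (ε / 8) * r * (1 + 2 * Real.log r) = (ε * r) / 8 + (1 / 4) * (ε * r * Real.log r) := by
      ring
    have g8 : 0 ≤ ε * r * Real.log r := by positivity
    rw [hC] at g6
    rw [g7]
    nlinarith [abs_nonneg (Real.log ε)]
  calc 2 ^ κ / (κ.factorial : ℝ) * (2 * n) ^ (2 * n / L) * Real.exp (2 * L)
      = 2 ^ κ * (1 / (κ.factorial : ℝ)) * (2 * n) ^ (2 * n / L) * Real.exp (2 * L) := by ring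
    _ ≤ Real.exp κ * Real.exp (κ - κ * Real.log κ) *
        Real.exp ((ε / 8) * r * (1 + 2 * Real.log r)) * Real.exp (2 * L) := by
        gcongr
    _ = Real.exp ((κ : ℝ) + (κ - κ * Real.log κ) + (ε / 8) * r * (1 + 2 * Real.log r) + 2 * L) := by
        rw [Real.exp_add, Real.exp_add, Real.exp_add]
    _ ≤ _ := Real.exp_le_exp.mpr hmain

theorem probY_nonneg (n : ℕ) (A : Set ℕ) : 0 ≤ probY n A := by
  unfold probY; positivity

theorem probY_mono (n : ℕ) {A B : Set ℕ} (h : A ⊆ B) : probY n A ≤ probY n B := by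
  unfold probY
  apply div_le_div_of_nonneg_right _ (Nat.cast_nonneg _)
  have : (univ.filter (fun M : Diag n => Crys M ∧ numShort M ∈ A)).card ≤
      (univ.filter (fun M : Diag n => Crys M ∧ numShort M ∈ B)).card := by
    apply card_le_card
    intro M hM
    simp only [mem_filter, mem_univ, true_and] at hM ⊢
    exact ⟨hM.1, h hM.2⟩
  exact_mod_cast this

theorem probY_total (n : ℕ) (A : Set ℕ) (hA : ∀ j, j ∈ A) (h : ∃ M : Diag n, Crys M) :
    probY n A = 1 := by
  unfold probY
  obtain ⟨M, hM⟩ := h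
  have h1 : (univ.filter (fun M : Diag n => Crys M ∧ numShort M ∈ A)) =
      (univ.filter (fun M : Diag n => Crys M)) := by
    ext M; simp [hA]
  have h2 : ((univ.filter (fun M : Diag n => Crys M)).card : ℝ) ≠ 0 := by
    have : 0 < (univ.filter (fun M : Diag n => Crys M)).card := card_pos.mpr ⟨M, by simp [hM]⟩
    exact_mod_cast this.ne'
  rw [h1]
  exact div_self h2

theorem probY_univ (n : ℕ) (h : ∃ M : Diag n, Crys M) : probY n Set.univ = 1 :=
  probY_total n _ (fun _ => Set.mem_univ _) h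

theorem probY_union (n : ℕ) {A B C : Set ℕ} (h : C ⊆ A ∪ B) :
    probY n C ≤ probY n A + probY n B := by
  unfold probY
  rw [← add_div]
  apply div_le_div_of_nonneg_right _ (Nat.cast_nonneg _)
  have : (univ.filter (fun M : Diag n => Crys M ∧ numShort M ∈ C)).card ≤
      (univ.filter (fun M : Diag n => Crys M ∧ numShort M ∈ A)).card +
      (univ.filter (fun M : Diag n => Crys M ∧ numShort M ∈ B)).card := by
    refine le_trans (card_le_card ?_) (card_union_le _ _)
    intro M hM
    simp only [mem_filter, mem_univ, true_and, mem_union] at hM ⊢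
    rcases h hM.2 with h1 | h1
    · exact Or.inl ⟨hM.1, h1⟩
    · exact Or.inr ⟨hM.1, h1⟩
  exact_mod_cast this

theorem tendsto_probY {ε : ℝ} (hε : 0 < ε) :
    Tendsto (fun n : ℕ => probY n {j | ε * Real.sqrt n ≤ j}) atTop (𝓝 0) := by
  have h1 : Tendsto (fun n : ℕ => Real.exp (-Real.sqrt n)) atTop (𝓝 0) := by
    apply Real.tendsto_exp_atBot.comp
    exact tendsto_neg_atTop_atBot.comp (Real.tendsto_sqrt_atTop.comp tendsto_natCast_atTop_atTop)
  refine squeeze_zero' (Eventually.of_forall (fun n => probY_nonneg n _)) ?_ h1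
  filter_upwards [probY_small (ε := min ε 1) (by positivity) (min_le_right _ _)] with n hn
  refine (probY_mono n ?_).trans hn
  intro j hj
  simp only [Set.mem_ofPred_eq] at hj ⊢
  refine le_trans ?_ hj
  gcongr
  exact min_le_left _ _

end Pool.Agent.Q185.CD
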