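import Pool.Agent.Q185.CD.LimX

namespace Pool.Agent.Q185.CD

open Finset Filter
open scoped Classical Topology

variable {n : ℕ}

/-! ### Diagrams with many short chords -/

theorem card_fixed (T : Finset (Fin (2 * n))) :
    (univ.filter (fun M : Diag n => ∀ v ∈ T, (M v).val = v.val + 1)).card ≤ pm (n - T.card) := by
  rcases Finset.eq_empty_or_nonempty
    (univ.filter (fun M : Diag n => ∀ v ∈ T, (M v).val = v.val + 1)) with h | ⟨M₀, hM₀⟩
  · rw [h]; simp
  simp only [mem_filter, mem_univ, true_and] at hM₀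
  set S : Finset (Fin (2 * n)) := T ∪ T.image M₀.toFun with hS
  have hcS : S.card = 2 * T.card := by
    rw [hS, card_union_of_disjoint, card_image_of_injOn]
    · ring
    · intro a _ b _ hab
      have := congrArg M₀.toFun hab
      simpa [M₀.inv'] using this
    · rw [disjoint_left]
      intro a ha ha'
      rw [mem_image] at ha'
      obtain ⟨b, hb, rfl⟩ := ha'
      have h1 := hM₀ _ hb
      have h2 := hM₀ _ ha
      have h3 : M₀ (M₀ b) = b := M₀.inv b
      have h2' : (M₀ (M₀ b)).val = (M₀ b).val + 1 := h2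
      rw [h3] at h2'
      omega
  have hok : Ok (univ \ S) M₀.toFun := by
    refine ⟨fun v hv => ?_, fun v _ => M₀.inv v, fun v _ => M₀.ne v⟩
    simp only [Finset.mem_sdiff, mem_univ, true_and, not_not] at hv ⊢
    rw [hS, mem_union, mem_image] at hv ⊢
    rcases hv with hv | ⟨u, hu, rfl⟩
    · exact Or.inr ⟨v, hv, rfl⟩
    · left
      have : M₀.toFun (M₀.toFun u) = u := M₀.inv u
      rw [this]; exact hu
  have hcard : (univ \ S : Finset (Fin (2 * n))).card + 2 * T.card = 2 * n := by
    have h5 := card_sdiff_add_card_inter (univ : Finset (Fin (2 * n))) S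
    rw [univ_inter, card_univ, Fintype.card_fin] at h5
    omega
  rw [← card_DD_empty (n - T.card) (univ \ S) M₀.toFun hok (by omega)]
  apply card_le_card
  intro M hM
  simp only [mem_filter, mem_univ, true_and] at hM
  rw [mem_DD]
  refine ⟨fun v hv => ?_, by simp⟩
  simp only [Finset.mem_sdiff, mem_univ, true_and, not_not] at hv
  have key : ∀ u ∈ T, M u = M₀ u := fun u hu => Fin.ext ((hM u hu).trans (hM₀ u hu).symm)
  rw [hS, mem_union, mem_image] at hv
  rcases hv with hv | ⟨u, hu, rfl⟩
  · exact key v hv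
  · have h1 : M₀.toFun (M₀.toFun u) = u := M₀.inv u
    rw [h1]
    have h2 : M₀.toFun u = M u := (key u hu).symm
    rw [h2]
    exact M.inv u

theorem card_many (κ : ℕ) :
    (univ.filter (fun M : Diag n => κ ≤ numShort M)).card ≤ (2 * n).choose κ * pm (n - κ) := by
  have h1 : univ.filter (fun M : Diag n => κ ≤ numShort M) ⊆
      (powersetCard κ (univ : Finset (Fin (2 * n)))).biUnion
        (fun T => univ.filter (fun M : Diag n => ∀ v ∈ T, (M v).val = v.val + 1)) := by
    intro M hM
    simp only [mem_filter, mem_univ, true_and] at hM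
    obtain ⟨T, hT, hTc⟩ := exists_subset_card_eq hM
    rw [mem_biUnion]
    refine ⟨T, by rw [mem_powersetCard]; exact ⟨subset_univ _, hTc⟩, ?_⟩
    simp only [mem_filter, mem_univ, true_and]
    intro v hv
    have := hT hv
    simpa using this
  refine (card_le_card h1).trans ?_
  refine card_biUnion_le.trans ?_
  calc ∑ T ∈ powersetCard κ (univ : Finset (Fin (2 * n))),
      (univ.filter (fun M : Diag n => ∀ v ∈ T, (M v).val = v.val + 1)).card
      ≤ ∑ T ∈ powersetCard κ (univ : Finset (Fin (2 * n))), pm (n - κ) := by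
        apply sum_le_sum
        intro T hT
        rw [mem_powersetCard] at hT
        rw [← hT.2]
        exact card_fixed T
    _ = _ := by
        rw [sum_const, card_powersetCard, card_univ, Fintype.card_fin, smul_eq_mul]

/-! ### Switching -/

/-- The vertices of `U` whose partner is in the same block. -/
noncomputable def inn (U : Finset (Fin (2 * n))) (b : Fin (2 * n) → ℕ) (M : Diag n) :
    Finset (Fin (2 * n)) := U.filter (fun v => b (M v) = b v)

theorem inn_switch {U : Finset (Fin (2 * n))} {w} (b : Fin (2 * n) → ℕ) (hok : Ok U w)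
    {M : Diag n} (hM : M ∈ DD U w ∅) {v c : Fin (2 * n)} (hv : v ∈ inn U b M) (_hc : c ∈ U)
    (h1 : b c ≠ b v) (h2 : b (M c) ≠ b v) :
    (inn U b (swapD (M v) c M)).card + 2 ≤ (inn U b M).card := by
  have hvU : v ∈ U := (mem_filter.mp hv).1
  have hvb : b (M v) = b v := (mem_filter.mp hv).2
  have huU : M v ∈ U := partner_mem hok hM hvU
  have huv : M v ≠ v := M.ne v
  have hcu : c ≠ M v := fun h => h1 (h ▸ hvb)
  have hcv : c ≠ v := fun h => h1 (h ▸ rfl)
  have hdv : M c ≠ v := fun h => h2 (by rw [h])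
  have hdu : M c ≠ M v := fun h => h2 (by rw [h, hvb])
  have hdc : M c ≠ c := M.ne c
  have hu : M v ∈ (inn U b M).erase v := by
    rw [mem_erase]
    refine ⟨huv, mem_filter.mpr ⟨huU, ?_⟩⟩
    rw [M.inv]; exact hvb.symm
  have h3 : inn U b (swapD (M v) c M) ⊆ ((inn U b M).erase v).erase (M v) := by
    intro x hx
    rw [inn, mem_filter, swapD_apply] at hx
    obtain ⟨hxU, hx⟩ := hx
    rw [mem_erase, mem_erase, inn, mem_filter]
    by_cases e1 : x = v
    · exfalso
      rw [e1, Equiv.swap_apply_of_ne_of_ne huv.symm hcv.symm, Equiv.swap_apply_left] at hx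
      exact h1 hx
    by_cases e2 : x = M v
    · exfalso
      rw [e2, Equiv.swap_apply_left, Equiv.swap_apply_of_ne_of_ne hdu hdc, hvb] at hx
      exact h2 hx
    by_cases e3 : x = c
    · exfalso
      rw [e3, Equiv.swap_apply_right, M.inv, Equiv.swap_apply_of_ne_of_ne huv.symm hcv.symm] at hx
      exact h1 hx.symm
    refine ⟨e2, e1, hxU, ?_⟩
    rw [Equiv.swap_apply_of_ne_of_ne e2 e3] at hx
    by_cases e4 : M x = M v
    · exact absurd (by have := congrArg M.toFun e4; simpa [M.inv'] using this) e1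
    by_cases e5 : M x = c
    · exfalso
      rw [e5, Equiv.swap_apply_right] at hx
      apply h2
      have : M c = x := by rw [← e5, M.inv]
      rw [this, ← hx, hvb]
    rw [Equiv.swap_apply_of_ne_of_ne e4 e5] at hx
    exact hx
  have h4 := card_le_card h3
  rw [card_erase_of_mem hu, card_erase_of_mem hv] at h4
  have h5 : 0 < ((inn U b M).erase v).card := card_pos.mpr ⟨_, hu⟩
  rw [card_erase_of_mem hv] at h5
  omega

theorem switch_ineq {U : Finset (Fin (2 * n))} {w} (b : Fin (2 * n) → ℕ) (hok : Ok U w)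
    {m s : ℕ} (hU : U.card = 2 * m) (hs : 2 * s ≤ m)
    (hb : ∀ v ∈ U, (U.filter (fun u => b u = b v)).card ≤ s) {x : ℝ} (hx0 : 0 ≤ x) (hx1 : x ≤ 1) :
    m * ∑ M ∈ DD U w ∅, ((inn U b M).card : ℝ) * x ^ ((inn U b M).card - 1) ≤
      2 * m * s * ∑ M ∈ DD U w ∅, x ^ (inn U b M).card := by
  -- the source
  have h1 : (m : ℝ) * ∑ M ∈ DD U w ∅, ((inn U b M).card : ℝ) * x ^ ((inn U b M).card - 1) ≤
      ∑ M ∈ DD U w ∅, ∑ v ∈ inn U b M, ∑ _c ∈ U.filter (fun c => b c ≠ b v ∧ b (M c) ≠ b v),
        x ^ ((inn U b M).card - 1) := by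
    rw [mul_sum]
    apply sum_le_sum
    intro M hM
    have : (m : ℝ) * (((inn U b M).card : ℝ) * x ^ ((inn U b M).card - 1)) =
        ∑ v ∈ inn U b M, (m : ℝ) * x ^ ((inn U b M).card - 1) := by
      rw [sum_const, nsmul_eq_mul]; ring
    rw [this]
    apply sum_le_sum
    intro v hv
    rw [sum_const, nsmul_eq_mul]
    apply mul_le_mul_of_nonneg_right _ (by positivity)
    have hvU : v ∈ U := (mem_filter.mp hv).1
    have h2 : U ⊆ U.filter (fun c => b c ≠ b v ∧ b (M c) ≠ b v) ∪
        (U.filter (fun u => b u = b v) ∪ (U.filter (fun u => b u = b v)).image M.toFun) := by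
      intro c hc
      by_cases e1 : b c = b v
      · simp [hc, e1]
      by_cases e2 : b (M c) = b v
      · rw [mem_union, mem_union]
        right; right
        rw [mem_image]
        exact ⟨M c, mem_filter.mpr ⟨partner_mem hok hM hc, e2⟩, M.inv c⟩
      · rw [mem_union]
        left
        exact mem_filter.mpr ⟨hc, e1, e2⟩
    have h3 := card_le_card h2
    have h4 := card_union_le (U.filter (fun c => b c ≠ b v ∧ b (M c) ≠ b v))
      (U.filter (fun u => b u = b v) ∪ (U.filter (fun u => b u = b v)).image M.toFun)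
    have h5 := card_union_le (U.filter (fun u => b u = b v))
      ((U.filter (fun u => b u = b v)).image M.toFun)
    have h6 := card_image_le (s := U.filter (fun u => b u = b v)) (f := M.toFun)
    have h7 := hb v hvU
    have h8 : m ≤ (U.filter (fun c => b c ≠ b v ∧ b (M c) ≠ b v)).card := by omega
    exact_mod_cast h8
  refine h1.trans ?_
  -- as a sum over triples
  have h2 : ∑ M ∈ DD U w ∅, ∑ v ∈ inn U b M,
      ∑ _c ∈ U.filter (fun c => b c ≠ b v ∧ b (M c) ≠ b v), x ^ ((inn U b M).card - 1) =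
      ∑ p ∈ ((DD U w ∅) ×ˢ (U ×ˢ U)).filter (fun p => p.2.1 ∈ inn U b p.1 ∧
        b p.2.2 ≠ b p.2.1 ∧ b (p.1 p.2.2) ≠ b p.2.1), x ^ ((inn U b p.1).card - 1) := by
    rw [sum_filter, sum_product]
    apply sum_congr rfl
    intro M _
    rw [sum_product]
    have hf : ∀ f : Fin (2 * n) → ℝ, ∑ v ∈ inn U b M, f v =
        ∑ v ∈ U, if b (M v) = b v then f v else 0 := fun f => by rw [inn, sum_filter]
    rw [hf]
    apply sum_congr rfl
    intro v hv
    have hvin : v ∈ inn U b M ↔ b (M v) = b v := by simp [inn, hv]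
    by_cases e : b (M v) = b v
    · rw [if_pos e, sum_filter]
      apply sum_congr rfl
      intro c _
      simp only [hvin, e, true_and]
    · rw [if_neg e]
      symm
      apply sum_eq_zero
      intro c _
      simp only [hvin, e, false_and, if_false]
  rw [h2]
  set S := ((DD U w ∅) ×ˢ (U ×ˢ U)).filter (fun p => p.2.1 ∈ inn U b p.1 ∧
        b p.2.2 ≠ b p.2.1 ∧ b (p.1 p.2.2) ≠ b p.2.1) with hS
  set Φ : Diag n × (Fin (2 * n) × Fin (2 * n)) → Diag n × (Fin (2 * n) × Fin (2 * n)) :=
    fun p => (swapD (p.1 p.2.1) p.2.2 p.1, (p.2.1, p.1 p.2.1)) with hΦ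
  have hmemS : ∀ p, p ∈ S ↔ (p.1 ∈ DD U w ∅ ∧ p.2.1 ∈ U ∧ p.2.2 ∈ U) ∧ p.2.1 ∈ inn U b p.1 ∧
        b p.2.2 ≠ b p.2.1 ∧ b (p.1 p.2.2) ≠ b p.2.1 := by
    intro p; simp [hS]
  have hinj : Set.InjOn Φ S := by
    have hleft : ∀ p ∈ S, (swapD (Φ p).2.2 ((Φ p).1 (Φ p).2.1) (Φ p).1,
        ((Φ p).2.1, (Φ p).1 (Φ p).2.1)) = p := by
      rintro ⟨M, v, c⟩ hp
      rw [hmemS] at hp
      obtain ⟨⟨hM, hv, hc⟩, hin, e1, e2⟩ := hp
      simp only at hM hv hc hin e1 e2
      have hvb : b (M v) = b v := (mem_filter.mp hin).2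
      have hcv : c ≠ v := fun h => e1 (h ▸ rfl)
      have e3 : swapD (M v) c M v = c := by
        rw [swapD_apply, Equiv.swap_apply_of_ne_of_ne (M.ne v).symm hcv.symm,
          Equiv.swap_apply_left]
      simp only [hΦ, e3, swapD_swapD]
    intro p hp q hq hpq
    rw [← hleft p hp, ← hleft q hq, hpq]
  calc ∑ p ∈ S, x ^ ((inn U b p.1).card - 1) ≤ ∑ p ∈ S, x ^ (inn U b (Φ p).1).card := by
        apply sum_le_sum
        intro p hp
        rw [hmemS] at hp
        have := inn_switch b hok hp.1.1 hp.2.1 hp.1.2.2 hp.2.2.1 hp.2.2.2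
        exact pow_le_pow_of_le_one hx0 hx1 (by simp only [hΦ]; omega)
    _ = ∑ p ∈ S.image Φ, x ^ (inn U b p.1).card := by
        rw [sum_image hinj]
    _ ≤ ∑ p ∈ (DD U w ∅) ×ˢ ((U ×ˢ U).filter (fun q => b q.2 = b q.1)),
          x ^ (inn U b p.1).card := by
        apply sum_le_sum_of_subset_of_nonneg
        · intro p hp
          rw [mem_image] at hp
          obtain ⟨q, hq, rfl⟩ := hp
          rw [hmemS] at hq
          obtain ⟨⟨hM, hv, hc⟩, hin, e1, e2⟩ := hq
          have huU := partner_mem hok hM hv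
          simp only [hΦ, mem_product, mem_filter]
          refine ⟨?_, ⟨hv, huU⟩, (mem_filter.mp hin).2⟩
          have := swapD_mem hok huU hc hM
          simpa [swN] using this
        · intro p _ _; positivity
    _ = ((U ×ˢ U).filter (fun q => b q.2 = b q.1)).card * ∑ M ∈ DD U w ∅, x ^ (inn U b M).card := by
        rw [sum_product, mul_sum]
        apply sum_congr rfl
        intro M _
        have := sum_const (s := (U ×ˢ U).filter (fun q => b q.2 = b q.1)) (x ^ (inn U b M).card)
        rw [nsmul_eq_mul] at this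
        exact this
    _ ≤ _ := by
        apply mul_le_mul_of_nonneg_right _ (sum_nonneg (fun _ _ => by positivity))
        have h5 : ((U ×ˢ U).filter (fun q => b q.2 = b q.1)).card ≤ 2 * m * s := by
          rw [card_filter, sum_product]
          calc ∑ v ∈ U, ∑ u ∈ U, (if b u = b v then 1 else 0)
              = ∑ v ∈ U, (U.filter (fun u => b u = b v)).card := by
                apply sum_congr rfl
                intro v _
                rw [card_filter]
            _ ≤ ∑ v ∈ U, s := sum_le_sum (fun v hv => hb v hv)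
            _ = 2 * m * s := by rw [sum_const, hU, smul_eq_mul]
        exact_mod_cast h5

/-- Most matchings have no internal pair, up to a factor `exp (2 s)`. -/
theorem switch_lower {U : Finset (Fin (2 * n))} {w} (b : Fin (2 * n) → ℕ) (hok : Ok U w)
    {m s : ℕ} (hm : 0 < m) (hU : U.card = 2 * m) (hs : 2 * s ≤ m)
    (hb : ∀ v ∈ U, (U.filter (fun u => b u = b v)).card ≤ s) :
    (pm m : ℝ) * Real.exp (-(2 * s)) ≤
      ((DD U w ∅).filter (fun M => (inn U b M).card = 0)).card := by
  set A : ℝ → ℝ := fun x => ∑ M ∈ DD U w ∅, x ^ (inn U b M).card with hA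
  set A' : ℝ → ℝ := fun x => ∑ M ∈ DD U w ∅, ((inn U b M).card : ℝ) * x ^ ((inn U b M).card - 1)
    with hA'
  have hder : ∀ x, HasDerivAt A (A' x) x := by
    intro x
    rw [hA, hA']
    apply HasDerivAt.fun_sum
    intro M _
    exact hasDerivAt_pow _ _
  have hmr : (0 : ℝ) < m := by exact_mod_cast hm
  have hin : ∀ x, 0 ≤ x → x ≤ 1 → A' x ≤ 2 * s * A x := by
    intro x h0 h1
    have := switch_ineq b hok hU hs hb h0 h1
    have h2 : (m : ℝ) * A' x ≤ m * (2 * s * A x) := by
      calc (m : ℝ) * A' x ≤ 2 * m * s * A x := this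
        _ = _ := by ring
    exact le_of_mul_le_mul_left h2 hmr
  set G : ℝ → ℝ := fun x => A x * Real.exp (-(2 * s * x)) with hG
  have hGder : ∀ x, HasDerivAt G (A' x * Real.exp (-(2 * s * x)) +
      A x * (Real.exp (-(2 * s * x)) * (-(2 * s)))) x := by
    intro x
    apply (hder x).mul
    apply HasDerivAt.exp
    have := ((hasDerivAt_id x).const_mul (2 * (s : ℝ))).fun_neg
    simpa using this
  have hanti : AntitoneOn G (Set.Icc 0 1) := by
    apply antitoneOn_of_deriv_nonpos (convex_Icc 0 1)
    · exact fun x _ => (hGder x).continuousAt.continuousWithinAt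
    · exact fun x _ => (hGder x).differentiableAt.differentiableWithinAt
    · intro x hx
      rw [interior_Icc] at hx
      rw [(hGder x).deriv]
      have h1 := hin x hx.1.le hx.2.le
      have h2 : A' x * Real.exp (-(2 * s * x)) + A x * (Real.exp (-(2 * s * x)) * (-(2 * s))) =
          (A' x - 2 * s * A x) * Real.exp (-(2 * s * x)) := by ring
      rw [h2]
      exact mul_nonpos_of_nonpos_of_nonneg (by linarith) (Real.exp_pos _).le
  have h3 := hanti (Set.left_mem_Icc.mpr zero_le_one) (Set.right_mem_Icc.mpr zero_le_one)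
    zero_le_one
  have h4 : G 0 = ((DD U w ∅).filter (fun M => (inn U b M).card = 0)).card := by
    rw [hG]
    simp only [mul_zero, neg_zero, Real.exp_zero, mul_one]
    rw [hA]
    simp only
    rw [card_filter]
    push_cast
    apply sum_congr rfl
    intro M _
    by_cases e : (inn U b M).card = 0
    · simp [e]
    · rw [if_neg e, zero_pow e]
  have h5 : G 1 = (pm m : ℝ) * Real.exp (-(2 * s)) := by
    rw [hG]
    simp only [mul_one]
    rw [hA]
    simp only [one_pow]
    rw [sum_const, nsmul_eq_mul, card_DD_empty m U w hok hU, mul_one]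
  rw [← h4, ← h5]
  exact h3

end Pool.Agent.Q185.CD
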