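import Pool.Agent.Q185.CD.Proc

namespace Pool.Agent.Q185.CD

open Finset
open scoped Classical

variable {n : ℕ}

/-- The image of a set of pairs under a transposition. -/
noncomputable def swN (i j : Fin (2 * n)) (N : Finset (Fin (2 * n) × Fin (2 * n))) :
    Finset (Fin (2 * n) × Fin (2 * n)) :=
  N.image (fun p => (Equiv.swap i j p.1, Equiv.swap i j p.2))

theorem mem_swN {i j : Fin (2 * n)} {N : Finset (Fin (2 * n) × Fin (2 * n))} {a b} :
    (a, b) ∈ swN i j N ↔ (Equiv.swap i j a, Equiv.swap i j b) ∈ N := by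
  unfold swN
  rw [mem_image]
  constructor
  · rintro ⟨⟨c, d⟩, h, h'⟩
    rw [Prod.mk.injEq] at h'
    obtain ⟨rfl, rfl⟩ := h'
    simpa using h
  · intro h
    exact ⟨_, h, by simp⟩

theorem card_swN (i j : Fin (2 * n)) (N : Finset (Fin (2 * n) × Fin (2 * n))) :
    (swN i j N).card = N.card := by
  apply card_image_of_injective
  rintro ⟨a, b⟩ ⟨c, d⟩ h
  simp only [Prod.mk.injEq, EmbeddingLike.apply_eq_iff_eq] at h
  rw [h.1, h.2]

theorem swapD_swapD (i j : Fin (2 * n)) (M : Diag n) : swapD i j (swapD i j M) = M := by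
  apply Diag.ext'
  intro v
  simp [swapD_apply]

theorem swap_mem_iff {U : Finset (Fin (2 * n))} {i j : Fin (2 * n)} (hi : i ∈ U) (hj : j ∈ U)
    (v) : Equiv.swap i j v ∈ U ↔ v ∈ U := by
  by_cases h1 : v = i
  · subst h1; simp [hi, hj]
  by_cases h2 : v = j
  · subst h2; simp [hi, hj]
  rw [Equiv.swap_apply_of_ne_of_ne h1 h2]

theorem swapD_mem {U : Finset (Fin (2 * n))} {w N} {i j : Fin (2 * n)} (hok : Ok U w)
    (hi : i ∈ U) (hj : j ∈ U) {M : Diag n} (hM : M ∈ DD U w N) :
    swapD i j M ∈ DD U w (swN i j N) := by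
  rw [mem_DD] at hM ⊢
  constructor
  · intro v hv
    have h1 : v ≠ i := fun h => hv (h ▸ hi)
    have h2 : v ≠ j := fun h => hv (h ▸ hj)
    rw [swapD_apply, Equiv.swap_apply_of_ne_of_ne h1 h2, hM.1 v hv]
    have h3 := hok.mem v hv
    have h4 : w v ≠ i := fun h => h3 (h ▸ hi)
    have h5 : w v ≠ j := fun h => h3 (h ▸ hj)
    rw [Equiv.swap_apply_of_ne_of_ne h4 h5]
  · rintro ⟨a, b⟩ hab
    rw [mem_swN] at hab
    intro h
    apply hM.2 _ hab
    simp only at h ⊢
    rw [← h, swapD_apply, Equiv.swap_apply_self]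

theorem lt_swap_iff {U : Finset (Fin (2 * n))} {i j : Fin (2 * n)} (hij : Adj i j)
    (hi : i ∈ U) (hj : j ∈ U) {z} (hz : z ∉ U) (v) : z < Equiv.swap i j v ↔ z < v := by
  have h1 : z ≠ i := fun h => hz (h ▸ hi)
  have h2 : z ≠ j := fun h => hz (h ▸ hj)
  have h1' : z.val ≠ i.val := fun h => h1 (Fin.ext h)
  have h2' : z.val ≠ j.val := fun h => h2 (Fin.ext h)
  unfold Adj at hij
  by_cases e1 : v = i
  · subst e1; rw [Equiv.swap_apply_left, Fin.lt_def, Fin.lt_def]; omega
  by_cases e2 : v = j
  · subst e2; rw [Equiv.swap_apply_right, Fin.lt_def, Fin.lt_def]; omega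
  rw [Equiv.swap_apply_of_ne_of_ne e1 e2]

theorem swap_lt_iff {U : Finset (Fin (2 * n))} {i j : Fin (2 * n)} (hij : Adj i j)
    (hi : i ∈ U) (hj : j ∈ U) {z} (hz : z ∉ U) (v) : Equiv.swap i j v < z ↔ v < z := by
  have h1 : z ≠ i := fun h => hz (h ▸ hi)
  have h2 : z ≠ j := fun h => hz (h ▸ hj)
  have h1' : z.val ≠ i.val := fun h => h1 (Fin.ext h)
  have h2' : z.val ≠ j.val := fun h => h2 (Fin.ext h)
  unfold Adj at hij
  by_cases e1 : v = i
  · subst e1; rw [Equiv.swap_apply_left, Fin.lt_def, Fin.lt_def]; omega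
  by_cases e2 : v = j
  · subst e2; rw [Equiv.swap_apply_right, Fin.lt_def, Fin.lt_def]; omega
  rw [Equiv.swap_apply_of_ne_of_ne e1 e2]

theorem swapD_NC {U : Finset (Fin (2 * n))} {i j : Fin (2 * n)} (hij : Adj i j)
    (hi : i ∈ U) (hj : j ∈ U) {M : Diag n} (hM : NC U M) : NC U (swapD i j M) := by
  obtain ⟨v, hv, h⟩ := hM
  refine ⟨Equiv.swap i j v, (swap_mem_iff hi hj v).mpr hv, fun z hz hb => h z hz ?_⟩
  unfold Btw at hb ⊢
  rw [swapD_apply, Equiv.swap_apply_self, lt_swap_iff hij hi hj hz, swap_lt_iff hij hi hj hz,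
    lt_swap_iff hij hi hj hz, swap_lt_iff hij hi hj hz] at hb
  exact hb

/-- The potential. -/
noncomputable def Gam (k F0 : ℕ) (q x B : ℝ) (s f : ℕ) : ℝ :=
  B * q ^ s * x ^ (k - s) * (1 + 4 * q / x) ^ (F0 - f)

theorem Gam_nonneg {k F0 : ℕ} {q x B : ℝ} (hq : 0 < q) (hx : 1 ≤ x) (hB : 0 ≤ B) (s f : ℕ) :
    0 ≤ Gam k F0 q x B s f := by
  unfold Gam; positivity

theorem Gam_ge {k F0 : ℕ} {q x B : ℝ} (hq : 0 < q) (hx : 1 ≤ x) (hB : 0 ≤ B) (s f : ℕ) :
    B * q ^ s ≤ Gam k F0 q x B s f := by
  unfold Gam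
  have h1 : 1 ≤ x ^ (k - s) := one_le_pow₀ hx
  have h2 : 1 ≤ (1 + 4 * q / x) ^ (F0 - f) := one_le_pow₀ (by
    have : 0 ≤ 4 * q / x := by positivity
    linarith)
  have h3 : 0 ≤ B * q ^ s := by positivity
  calc B * q ^ s = B * q ^ s * 1 * 1 := by ring
    _ ≤ _ := by gcongr

theorem Gam_succ {k F0 : ℕ} {q x B : ℝ} (hq : 0 < q) (hx : 1 ≤ x) (hqx : 4 * q ≤ x)
    (hB : 0 ≤ B) {s f : ℕ} (hs : s < k) (hf : f < F0) :
    Gam k F0 q x B s (f + 1) + (B * q ^ (s + 1) + Gam k F0 q x B (s + 1) f) ≤
      Gam k F0 q x B s f := by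
  obtain ⟨a, rfl⟩ : ∃ a, k = s + 1 + a := ⟨k - s - 1, by omega⟩
  obtain ⟨b, rfl⟩ : ∃ b, F0 = f + 1 + b := ⟨F0 - f - 1, by omega⟩
  unfold Gam
  have e1 : s + 1 + a - s = a + 1 := by omega
  have e2 : f + 1 + b - (f + 1) = b := by omega
  have e3 : s + 1 + a - (s + 1) = a := by omega
  have e4 : f + 1 + b - f = b + 1 := by omega
  rw [e1, e2, e3, e4]
  have hx0 : 0 < x := by linarith
  set y := 1 + 4 * q / x with hy
  have hy1 : 1 ≤ y := by
    have : 0 ≤ 4 * q / x := by positivity
    linarith
  have hy2 : y ≤ 2 := by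
    have : 4 * q / x ≤ 1 := by rw [div_le_one hx0]; exact hqx
    linarith
  have hxy : x * (y - 1) = 4 * q := by
    rw [hy]; field_simp; ring
  have h1 : 1 ≤ x ^ a * y ^ b := one_le_mul_of_one_le_of_one_le (one_le_pow₀ hx) (one_le_pow₀ hy1)
  have h2 : B * q ^ s * x ^ (a + 1) * y ^ b + (B * q ^ (s + 1) + B * q ^ (s + 1) * x ^ a * y ^ (b + 1))
      = B * q ^ s * (x ^ a * y ^ b * x + (q + q * (x ^ a * y ^ b) * y)) := by ring
  have h3 : B * q ^ s * x ^ (a + 1) * y ^ (b + 1) = B * q ^ s * (x ^ a * y ^ b * x + x ^ a * y ^ b * (x * (y - 1))) := by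
    ring
  rw [h2, h3, hxy]
  apply mul_le_mul_of_nonneg_left _ (by positivity)
  set W := x ^ a * y ^ b with hW
  have h4 : q * W * y ≤ q * W * 2 := mul_le_mul_of_nonneg_left hy2 (by positivity)
  nlinarith [mul_le_mul_of_nonneg_left h1 hq.le, mul_pos hq (lt_of_lt_of_le one_pos h1)]

theorem Gam_mono {k F0 : ℕ} {q x B : ℝ} (hq : 0 < q) (hx : 1 ≤ x)
    (hB : 0 ≤ B) {s f : ℕ} : Gam k F0 q x B s (f + 1) ≤ Gam k F0 q x B s f := by
  unfold Gam
  apply mul_le_mul_of_nonneg_left _ (by positivity)
  apply pow_le_pow_right₀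
  · have : 0 ≤ 4 * q / x := by positivity
    linarith
  · omega

/-- Conditions on a state. -/
structure Cond (k F0 s f : ℕ) (U : Finset (Fin (2 * n))) (w : Fin (2 * n) → Fin (2 * n))
    (N : Finset (Fin (2 * n) × Fin (2 * n))) : Prop where
  hs : s ≤ k
  hf : f ≤ F0
  ok : Ok U w
  adj : ∀ v, v ∉ U → Adj v (w v)
  card : U.card + 2 * s = 2 * n
  sym : ∀ a b, (a, b) ∈ N → (b, a) ∈ N
  off : ∀ a, (a, a) ∉ N
  cN : N.card = 2 * f

theorem upd_adj {U : Finset (Fin (2 * n))} {w : Fin (2 * n) → Fin (2 * n)} {v u : Fin (2 * n)}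
    (hadj : ∀ x, x ∉ U → Adj x (w x)) (hvu : Adj v u) :
    ∀ x, x ∉ cut U v u → Adj x (upd w v u x) := by
  intro x hx
  by_cases h1 : x = v
  · subst h1; simpa [upd] using hvu
  by_cases h2 : x = u
  · subst h2
    simpa [upd, h1] using hvu.symm
  simp only [upd, h1, h2, if_false]
  apply hadj
  intro h3
  exact hx (mem_cut.mpr ⟨h2, h1, h3⟩)

theorem all_of_base {k F0 t : ℕ} {q x B : ℝ} (hq : 0 < q) (hx : 1 ≤ x) (hqx : 4 * q ≤ x)
    (hB : 0 ≤ B)
    (hB1 : ∀ (s : ℕ) (U : Finset (Fin (2 * n))) (w) (N : Finset (Fin (2 * n) × Fin (2 * n))),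
      s ≤ k → Ok U w → U.card + 2 * s = 2 * n → (∀ a b, (a, b) ∈ N → (b, a) ∈ N) →
      (∀ a, (a, a) ∉ N) → N.card = 2 * F0 → ((DD U w N).card : ℝ) ≤ B * q ^ s)
    (hB2 : ∀ (s : ℕ) (U : Finset (Fin (2 * n))) (w), s ≤ k → Ok U w →
      (∀ v, v ∉ U → Adj v (w v)) → U.card + 2 * s = 2 * n →
      (((DD U w ∅).filter (fun M => ¬ NC U M)).card : ℝ) ≤ B * q ^ s)
    (hbase : ∀ (s f : ℕ) (U : Finset (Fin (2 * n))) (w) (N : Finset (Fin (2 * n) × Fin (2 * n))),
      Cond k F0 s f U w N → (∀ v ∈ U, ∀ u ∈ U, Adj v u → (v, u) ∈ N) →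
      ∑ M ∈ (DD U w N).filter (NC U), hit k t M ≤ Gam k F0 q x B s f) :
    ∀ (s f : ℕ) (U : Finset (Fin (2 * n))) (w) (N : Finset (Fin (2 * n) × Fin (2 * n))),
      Cond k F0 s f U w N →
      ∑ M ∈ (DD U w N).filter (NC U), hit k t M ≤ Gam k F0 q x B s f := by
  intro s f U w N
  generalize hc : ((U ×ˢ U).filter (fun p => Adj p.1 p.2 ∧ p ∉ N)).card = c
  induction c using Nat.strong_induction_on generalizing s f U w N with
  | _ c ihc =>
  intro hC
  rcases Nat.eq_zero_or_pos c with hc0 | hc0
  · apply hbase s f U w N hC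
    intro v hv u hu hvu
    by_contra hn
    have : (v, u) ∈ (U ×ˢ U).filter (fun p => Adj p.1 p.2 ∧ p ∉ N) := by
      simp [hv, hu, hvu, hn]
    rw [card_eq_zero.mp (hc.trans hc0)] at this
    simp at this
  · rcases hC.hf.eq_or_lt with hf0 | hf0
    · -- the number of failed tests is maximal
      have h1 := hB1 s U w N hC.hs hC.ok hC.card hC.sym hC.off (hf0 ▸ hC.cN)
      calc ∑ M ∈ (DD U w N).filter (NC U), hit k t M
          ≤ ∑ M ∈ (DD U w N).filter (NC U), (1 : ℝ) := sum_le_sum (fun M _ => hit_le_one k t M)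
        _ = ((DD U w N).filter (NC U)).card := by simp
        _ ≤ (DD U w N).card := by exact_mod_cast card_filter_le _ _
        _ ≤ B * q ^ s := h1
        _ ≤ _ := Gam_ge hq hx hB s f
    · -- a test
      obtain ⟨⟨v, u⟩, hvu⟩ := card_pos.mp (hc.symm ▸ hc0)
      have hvu' := hvu
      simp only [mem_filter, mem_product] at hvu'
      obtain ⟨⟨hv, hu⟩, hadj, hn⟩ := hvu'
      have hne : v ≠ u := hadj.ne
      have hn' : (u, v) ∉ N := fun h => hn (hC.sym _ _ h)
      set N' : Finset (Fin (2 * n) × Fin (2 * n)) := insert (v, u) (insert (u, v) N) with hN'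
      have hmN' : ∀ p, p ∈ N' ↔ p = (v, u) ∨ p = (u, v) ∨ p ∈ N := by
        intro p; simp [hN']
      -- splitting
      have hsplit : ∑ M ∈ (DD U w N).filter (NC U), hit k t M =
          ∑ M ∈ (DD U w N').filter (NC U), hit k t M +
          ∑ M ∈ ((DD U w N).filter (NC U)).filter (fun M => M v = u), hit k t M := by
        rw [← sum_filter_add_sum_filter_not ((DD U w N).filter (NC U)) (fun M => M v = u),
          add_comm]
        congr 1
        apply sum_congr _ (fun _ _ => rfl)
        ext M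
        simp only [mem_filter, mem_DD]
        constructor
        · rintro ⟨⟨⟨h1, h2⟩, h3⟩, h4⟩
          refine ⟨⟨h1, fun p hp => ?_⟩, h3⟩
          rw [hmN'] at hp
          rcases hp with rfl | rfl | hp
          · exact h4
          · intro h5
            apply h4
            have h5' : M u = v := h5
            rw [← h5', M.inv]
          · exact h2 p hp
        · rintro ⟨⟨h1, h2⟩, h3⟩
          refine ⟨⟨⟨h1, fun p hp => h2 p ((hmN' p).mpr (Or.inr (Or.inr hp)))⟩, h3⟩, ?_⟩
          exact h2 (v, u) ((hmN' _).mpr (Or.inl rfl))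
      rw [hsplit]
      -- failure
      have hfail : ∑ M ∈ (DD U w N').filter (NC U), hit k t M ≤ Gam k F0 q x B s (f + 1) := by
        apply ihc (((U ×ˢ U).filter (fun p => Adj p.1 p.2 ∧ p ∉ N')).card) _ s (f + 1) U w N' rfl
        · refine ⟨hC.hs, hf0, hC.ok, hC.adj, hC.card, ?_, ?_, ?_⟩
          · intro a b hab
            rw [hmN'] at hab ⊢
            rcases hab with h | h | h
            · rw [Prod.mk.injEq] at h; right; left; rw [h.1, h.2]
            · rw [Prod.mk.injEq] at h; left; rw [h.1, h.2]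
            · right; right; exact hC.sym _ _ h
          · intro a h
            rw [hmN'] at h
            rcases h with h | h | h
            · rw [Prod.mk.injEq] at h; exact hne (h.1.symm.trans h.2)
            · rw [Prod.mk.injEq] at h; exact hne (h.2.symm.trans h.1)
            · exact hC.off _ h
          · rw [hN', card_insert_of_notMem, card_insert_of_notMem hn', hC.cN]
            · ring
            · rw [mem_insert, Prod.mk.injEq]
              rintro (h | h)
              · exact hne h.1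
              · exact hn h
        · rw [← hc]
          apply card_lt_card
          rw [ssubset_iff_of_subset]
          · refine ⟨(v, u), hvu, ?_⟩
            simp [hmN']
          · intro p hp
            rw [mem_filter] at hp ⊢
            exact ⟨hp.1, hp.2.1, fun h => hp.2.2 ((hmN' p).mpr (Or.inr (Or.inr h)))⟩
      -- success
      have hsub : ((DD U w N).filter (NC U)).filter (fun M => M v = u) ⊆
          DD (cut U v u) (upd w v u) N := by
        intro M hM
        simp only [mem_filter] at hM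
        exact sub_DD hM.1.1 hM.2
      have hok' := hC.ok.upd hv hu hne
      have hadj' := upd_adj hC.adj hadj
      have hcard' := card_cut hv hu hne
      rcases hC.hs.eq_or_lt with hs0 | hs0
      · have hz : ∑ M ∈ ((DD U w N).filter (NC U)).filter (fun M => M v = u), hit k t M = 0 := by
          apply sum_eq_zero
          intro M hM
          apply hit_eq_zero
          have := numShort_ge hadj' (hsub hM)
          have := hC.card
          omega
        rw [hz, add_zero]
        exact hfail.trans (Gam_mono hq hx hB)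
      · have hsucc : ∑ M ∈ ((DD U w N).filter (NC U)).filter (fun M => M v = u), hit k t M ≤
            B * q ^ (s + 1) + Gam k F0 q x B (s + 1) f := by
          calc ∑ M ∈ ((DD U w N).filter (NC U)).filter (fun M => M v = u), hit k t M
              ≤ ∑ M ∈ DD (cut U v u) (upd w v u) N, hit k t M :=
                sum_le_sum_of_subset_of_nonneg hsub (fun M _ _ => hit_nonneg k t M)
            _ = ∑ M ∈ (DD (cut U v u) (upd w v u) N).filter (fun M => ¬ NC (cut U v u) M),
                  hit k t M + ∑ M ∈ (DD (cut U v u) (upd w v u) N).filter (NC (cut U v u)),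
                  hit k t M := by
                rw [← sum_filter_add_sum_filter_not _ (NC (cut U v u)), add_comm]
            _ ≤ _ := by
                apply add_le_add
                · calc ∑ M ∈ (DD (cut U v u) (upd w v u) N).filter (fun M => ¬ NC (cut U v u) M),
                        hit k t M
                      ≤ ∑ M ∈ (DD (cut U v u) (upd w v u) N).filter
                          (fun M => ¬ NC (cut U v u) M), (1 : ℝ) :=
                        sum_le_sum (fun M _ => hit_le_one k t M)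
                    _ = ((DD (cut U v u) (upd w v u) N).filter
                          (fun M => ¬ NC (cut U v u) M)).card := by simp
                    _ ≤ ((DD (cut U v u) (upd w v u) ∅).filter
                          (fun M => ¬ NC (cut U v u) M)).card := by
                        have : ((DD (cut U v u) (upd w v u) N).filter
                          (fun M => ¬ NC (cut U v u) M)).card ≤
                          ((DD (cut U v u) (upd w v u) ∅).filter
                          (fun M => ¬ NC (cut U v u) M)).card := by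
                          apply card_le_card
                          apply filter_subset_filter
                          intro M hM
                          rw [mem_DD] at hM ⊢
                          exact ⟨hM.1, by simp⟩
                        exact_mod_cast this
                    _ ≤ B * q ^ (s + 1) := by
                        apply hB2 (s + 1) _ _ hs0 hok' hadj'
                        have := hC.card
                        omega
                · apply ihc _ _ (s + 1) f _ _ N rfl
                  · exact ⟨hs0, hC.hf, hok', hadj', by have := hC.card; omega, hC.sym, hC.off,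
                      hC.cN⟩
                  · rw [← hc]
                    apply card_lt_card
                    rw [ssubset_iff_of_subset]
                    · refine ⟨(v, u), hvu, ?_⟩
                      simp [mem_cut]
                    · rintro ⟨a, b⟩ hp
                      simp only [mem_filter, mem_product, mem_cut] at hp ⊢
                      exact ⟨⟨hp.1.1.2.2, hp.1.2.2.2⟩, hp.2⟩
        refine le_trans (add_le_add hfail hsucc) ?_
        exact Gam_succ hq hx hqx hB hs0 hf0

theorem main_ind {k F0 : ℕ} {q x B : ℝ} (hq : 0 < q) (hx : 1 ≤ x) (hqx : 4 * q ≤ x)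
    (hB : 0 ≤ B)
    (hB1 : ∀ (s : ℕ) (U : Finset (Fin (2 * n))) (w) (N : Finset (Fin (2 * n) × Fin (2 * n))),
      s ≤ k → Ok U w → U.card + 2 * s = 2 * n → (∀ a b, (a, b) ∈ N → (b, a) ∈ N) →
      (∀ a, (a, a) ∉ N) → N.card = 2 * F0 → ((DD U w N).card : ℝ) ≤ B * q ^ s)
    (hB2 : ∀ (s : ℕ) (U : Finset (Fin (2 * n))) (w), s ≤ k → Ok U w →
      (∀ v, v ∉ U → Adj v (w v)) → U.card + 2 * s = 2 * n →
      (((DD U w ∅).filter (fun M => ¬ NC U M)).card : ℝ) ≤ B * q ^ s) :
    ∀ (t s f : ℕ) (U : Finset (Fin (2 * n))) (w) (N : Finset (Fin (2 * n) × Fin (2 * n))),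
      Cond k F0 s f U w N →
      ∑ M ∈ (DD U w N).filter (NC U), hit k t M ≤ Gam k F0 q x B s f := by
  intro t
  induction t with
  | zero =>
    apply all_of_base hq hx hqx hB hB1 hB2
    intro s f U w N hC hN
    rw [sum_eq_zero]
    · exact Gam_nonneg hq hx hB s f
    · intro M hM
      rw [mem_filter] at hM
      rw [hit_zero, if_neg]
      rintro ⟨h, _⟩
      exact (crys_iff_NC hC.ok hC.adj hN hM.1).mp h hM.2
  | succ t iht =>
    apply all_of_base hq hx hqx hB hB1 hB2
    intro s f U w N hC hN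
    have hstep : ∀ M ∈ (DD U w N).filter (NC U), hit k (t + 1) M =
        (∑ i ∈ U, (∑ j ∈ nbr i, hit k t (move M i j)) / (nbr i).card) / U.card := by
      intro M hM
      rw [mem_filter] at hM
      have h1 : ¬ Crys M := fun h => (crys_iff_NC hC.ok hC.adj hN hM.1).mp h hM.2
      have h2 : loose M = U := by
        ext v
        simp only [loose, mem_filter, mem_univ, true_and]
        rw [shortEnd_iff hC.ok hC.adj hN hM.1, not_not]
      rw [hit_succ_not k t M h1, h2]
    rw [sum_congr rfl hstep, ← sum_div, sum_comm]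
    apply avg_le _ _ (Gam_nonneg hq hx hB s f)
    intro i hi
    rw [← sum_div, sum_comm]
    apply avg_le _ _ (Gam_nonneg hq hx hB s f)
    intro j hj
    have hij : Adj i j := by simpa [nbr] using hj
    by_cases hjU : j ∈ U
    · have h1 : ∀ M ∈ (DD U w N).filter (NC U), hit k t (move M i j) = hit k t (swapD i j M) := by
        intro M hM
        rw [mem_filter] at hM
        unfold move
        rw [if_neg]
        rw [shortEnd_iff hC.ok hC.adj hN hM.1, not_not]
        exact hjU
      rw [sum_congr rfl h1]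
      have h2 : ∑ M ∈ (DD U w N).filter (NC U), hit k t (swapD i j M) =
          ∑ M ∈ ((DD U w N).filter (NC U)).image (swapD i j), hit k t M := by
        rw [sum_image]
        intro a _ b _ hab
        rw [← swapD_swapD i j a, ← swapD_swapD i j b]
        exact congrArg _ hab
      rw [h2]
      refine le_trans (sum_le_sum_of_subset_of_nonneg
        (t := (DD U w (swN i j N)).filter (NC U)) ?_ (fun M _ _ => hit_nonneg k t M)) ?_
      · intro M' hM'
        rw [mem_image] at hM'
        obtain ⟨M, hM, rfl⟩ := hM'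
        rw [mem_filter] at hM ⊢
        exact ⟨swapD_mem hC.ok hi hjU hM.1, swapD_NC hij hi hjU hM.2⟩
      · apply iht
        refine ⟨hC.hs, hC.hf, hC.ok, hC.adj, hC.card, ?_, ?_, ?_⟩
        · intro a b hab
          rw [mem_swN] at hab ⊢
          exact hC.sym _ _ hab
        · intro a ha
          rw [mem_swN] at ha
          exact hC.off _ ha
        · rw [card_swN, hC.cN]
    · have h1 : ∀ M ∈ (DD U w N).filter (NC U), hit k t (move M i j) = hit k t M := by
        intro M hM
        rw [mem_filter] at hM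
        unfold move
        rw [if_pos]
        rw [shortEnd_iff hC.ok hC.adj hN hM.1]
        exact hjU
      rw [sum_congr rfl h1]
      exact iht s f U w N hC

/-- The conclusion for the whole process. -/
theorem total_le {k F0 : ℕ} {q x B : ℝ} (hn : 0 < n) (hq : 0 < q) (hx : 1 ≤ x)
    (hqx : 4 * q ≤ x) (hB : 0 ≤ B)
    (hB1 : ∀ (s : ℕ) (U : Finset (Fin (2 * n))) (w) (N : Finset (Fin (2 * n) × Fin (2 * n))),
      s ≤ k → Ok U w → U.card + 2 * s = 2 * n → (∀ a b, (a, b) ∈ N → (b, a) ∈ N) →
      (∀ a, (a, a) ∉ N) → N.card = 2 * F0 → ((DD U w N).card : ℝ) ≤ B * q ^ s)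
    (hB2 : ∀ (s : ℕ) (U : Finset (Fin (2 * n))) (w), s ≤ k → Ok U w →
      (∀ v, v ∉ U → Adj v (w v)) → U.card + 2 * s = 2 * n →
      (((DD U w ∅).filter (fun M => ¬ NC U M)).card : ℝ) ≤ B * q ^ s) (t : ℕ) :
    ∑ M : Diag n, hit k t M ≤ B * x ^ k * (1 + 4 * q / x) ^ F0 := by
  have h := main_ind hq hx hqx hB hB1 hB2 t 0 0 univ id ∅
    ⟨Nat.zero_le _, Nat.zero_le _, ⟨by simp, by simp, by simp⟩, by simp, by simp, by simp,
      by simp, by simp⟩
  have h1 : (DD (univ : Finset (Fin (2 * n))) id ∅).filter (NC univ) = univ := by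
    ext M
    simp only [mem_filter, mem_univ, iff_true, mem_DD]
    refine ⟨⟨by simp, by simp⟩, ⟨⟨0, by omega⟩, mem_univ _, by simp⟩⟩
  rw [h1] at h
  simpa [Gam] using h

end Pool.Agent.Q185.CD
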