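import Pool.Agent.Q185.CD.Count

namespace Pool.Agent.Q185.CD

open Finset
open scoped Classical

variable {n : ℕ}

theorem Adj.symm {v u : Fin (2 * n)} (h : Adj v u) : Adj u v := by
  unfold Adj at *; tauto

theorem Adj.ne {v u : Fin (2 * n)} (h : Adj v u) : v ≠ u := by
  rintro rfl; unfold Adj at h; omega

theorem shortEnd_partner {M : Diag n} {v} (h : ShortEnd M v) : ShortEnd M (M v) := by
  unfold ShortEnd at *
  rw [M.inv]; exact h.symm

theorem shortEnd_partner_iff {M : Diag n} {v} : ShortEnd M (M v) ↔ ShortEnd M v :=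
  ⟨fun h => by have := shortEnd_partner h; rwa [M.inv] at this, shortEnd_partner⟩

/-- `z` is strictly between `v` and `u`. -/
def Btw (v z u : Fin (2 * n)) : Prop := (v < z ∧ z < u) ∨ (u < z ∧ z < v)

theorem crys_iff (M : Diag n) :
    Crys M ↔ ∀ v, ShortEnd M v ∨ ∃ z, ShortEnd M z ∧ Btw v z (M v) := by
  constructor
  · intro h v
    by_cases hs : ShortEnd M v
    · exact Or.inl hs
    right
    have key : ∀ v, ¬ ShortEnd M v → ∀ B, IsBubble M B → v ∈ B → M v ∉ B →
        ∃ z, ShortEnd M z ∧ Btw v z (M v) := by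
      intro v hs B hB hv hMv
      by_contra hc
      push Not at hc
      obtain ⟨_, ⟨h1, h2⟩, h3⟩ := hB
      set B' : Finset (Fin (2 * n)) := B ∪ univ.filter (fun x => (v ≤ x ∧ x ≤ M v) ∨
        (M v ≤ x ∧ x ≤ v)) with hB'
      have hmem : ∀ x, x ∈ B' ↔ x ∈ B ∨ ((v ≤ x ∧ x ≤ M v) ∨ (M v ≤ x ∧ x ≤ v)) := by
        intro x; simp [hB']
      have hfree : FreeRun M B' := by
        constructor
        · intro x hx z hz y hxy hyz
          rw [hmem] at hx hz ⊢
          rcases le_total y v with hyv | hyv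
          · rcases hx with hx | hx | hx
            · exact Or.inl (h1 x hx v hv y hxy hyv)
            · have : y = v := le_antisymm hyv (hx.1.trans hxy)
              rw [this]; exact Or.inl hv
            · exact Or.inr (Or.inr ⟨hx.1.trans hxy, hyv⟩)
          · rcases hz with hz | hz | hz
            · exact Or.inl (h1 v hv z hz y hyv hyz)
            · exact Or.inr (Or.inl ⟨hyv, hyz.trans hz.2⟩)
            · have : y = v := le_antisymm (hyz.trans hz.2) hyv
              rw [this]; exact Or.inl hv
        · intro x hx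
          rw [hmem] at hx
          rcases hx with hx | hx
          · exact h2 x hx
          · intro hsx
            have h4 := hc x hsx
            by_cases e1 : x = v
            · exact hs (e1 ▸ hsx)
            by_cases e2 : x = M v
            · rw [e2] at hsx; exact hs (shortEnd_partner_iff.mp hsx)
            apply h4
            rcases hx with hx | hx
            · exact Or.inl ⟨lt_of_le_of_ne hx.1 (Ne.symm e1), lt_of_le_of_ne hx.2 e2⟩
            · exact Or.inr ⟨lt_of_le_of_ne hx.1 (Ne.symm e2), lt_of_le_of_ne hx.2 e1⟩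
      have h5 := h3 B' (by rw [hB']; exact subset_union_left) hfree
      apply hMv
      rw [← h5, hmem]
      right
      rcases le_total v (M v) with h | h
      · exact Or.inl ⟨h, le_rfl⟩
      · exact Or.inr ⟨le_rfl, h⟩
    rcases h v with h | ⟨B, hB, hb | hb⟩
    · exact absurd h hs
    · exact key v hs B hB hb.1 hb.2
    · obtain ⟨z, hz, hz'⟩ := key (M v) (fun h => hs (shortEnd_partner_iff.mp h)) B hB hb.2
        (by rw [M.inv]; exact hb.1)
      rw [M.inv] at hz'
      exact ⟨z, hz, by unfold Btw at *; tauto⟩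
  · intro h v
    rcases h v with h | ⟨z, hz, hz'⟩
    · exact Or.inl h
    by_cases hs : ShortEnd M v
    · exact Or.inl hs
    right
    set B : Finset (Fin (2 * n)) := univ.filter (fun x => ∀ z, ((x ≤ z ∧ z ≤ v) ∨
      (v ≤ z ∧ z ≤ x)) → ¬ ShortEnd M z) with hB
    have hmem : ∀ x, x ∈ B ↔ ∀ z, ((x ≤ z ∧ z ≤ v) ∨ (v ≤ z ∧ z ≤ x)) → ¬ ShortEnd M z := by
      intro x; simp [hB]
    have hvB : v ∈ B := by
      rw [hmem]
      intro z hz
      have : z = v := by
        rcases hz with hz | hz
        · exact le_antisymm hz.2 hz.1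
        · exact le_antisymm hz.2 hz.1
      rw [this]; exact hs
    refine ⟨B, ⟨⟨v, hvB⟩, ⟨?_, ?_⟩, ?_⟩, Or.inl ⟨hvB, ?_⟩⟩
    · intro x hx z hz y hxy hyz
      rw [hmem] at hx hz ⊢
      intro t ht
      rcases ht with ht | ht
      · exact hx t (Or.inl ⟨hxy.trans ht.1, ht.2⟩)
      · exact hz t (Or.inr ⟨ht.1, ht.2.trans hyz⟩)
    · intro x hx
      rw [hmem] at hx
      apply hx
      rcases le_total x v with h | h
      · exact Or.inl ⟨le_rfl, h⟩
      · exact Or.inr ⟨h, le_rfl⟩
    · intro B' hBB' hB'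
      apply Subset.antisymm _ hBB'
      intro x hx
      rw [hmem]
      intro z hz
      apply hB'.2
      rcases hz with hz | hz
      · exact hB'.1 x hx v (hBB' hvB) z hz.1 hz.2
      · exact hB'.1 v (hBB' hvB) x hx z hz.1 hz.2
    · rw [hmem]
      push Not
      refine ⟨z, ?_, hz⟩
      rcases hz' with h | h
      · exact Or.inr ⟨h.1.le, h.2.le⟩
      · exact Or.inl ⟨h.1.le, h.2.le⟩

/-- The probability that the chain started at `M` is, at time `t`, at a crystallized diagram
with at most `k` short chords. -/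
noncomputable def hit (k t : ℕ) (M : Diag n) : ℝ :=
  ∑ M' ∈ univ.filter (fun M' : Diag n => Crys M' ∧ numShort M' ≤ k), (trans n ^ t) M M'

theorem hit_zero (k : ℕ) (M : Diag n) :
    hit k 0 M = if Crys M ∧ numShort M ≤ k then 1 else 0 := by
  unfold hit
  rw [pow_zero]
  simp only [Matrix.one_apply]
  rw [sum_filter]
  rw [sum_eq_single M]
  · simp
  · intro b _ hb
    split_ifs with h1 h2
    · exact absurd h2.symm hb
    · rfl
    · rfl
  · intro h; exact absurd (mem_univ _) h

theorem hit_succ (k t : ℕ) (M : Diag n) :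
    hit k (t + 1) M = ∑ M'', trans n M M'' * hit k t M'' := by
  unfold hit
  simp only [pow_succ', Matrix.mul_apply, mul_sum]
  rw [sum_comm]

theorem hit_succ_crys (k t : ℕ) (M : Diag n) (h : Crys M) : hit k (t + 1) M = hit k t M := by
  rw [hit_succ, sum_eq_single M]
  · simp [trans, h]
  · intro b _ hb
    simp [trans, h, hb]
  · intro h; exact absurd (mem_univ _) h

theorem hit_succ_not (k t : ℕ) (M : Diag n) (h : ¬ Crys M) :
    hit k (t + 1) M = (∑ i ∈ loose M, (∑ j ∈ nbr i, hit k t (move M i j)) / (nbr i).card) /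
      (loose M).card := by
  rw [hit_succ]
  simp only [trans, h, if_false]
  simp only [div_mul_eq_mul_div]
  rw [← sum_div]
  congr 1
  simp only [sum_mul]
  rw [sum_comm]
  apply sum_congr rfl
  intro i _
  simp only [div_mul_eq_mul_div]
  rw [← sum_div]
  congr 1
  simp only [sum_mul]
  rw [sum_comm]
  apply sum_congr rfl
  intro j _
  simp

theorem avg_le {ι : Type*} (s : Finset ι) (f : ι → ℝ) {c : ℝ} (hc : 0 ≤ c)
    (h : ∀ i ∈ s, f i ≤ c) : (∑ i ∈ s, f i) / s.card ≤ c := by
  rcases Nat.eq_zero_or_pos s.card with h0 | h0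
  · rw [h0]; simpa using hc
  · rw [div_le_iff₀ (by exact_mod_cast h0)]
    calc ∑ i ∈ s, f i ≤ ∑ _i ∈ s, c := sum_le_sum h
      _ = c * s.card := by rw [sum_const, nsmul_eq_mul, mul_comm]

theorem hit_nonneg (k t : ℕ) : ∀ M : Diag n, 0 ≤ hit k t M := by
  induction t with
  | zero =>
    intro M
    rw [hit_zero]; split_ifs <;> norm_num
  | succ t ih =>
    intro M
    by_cases h : Crys M
    · rw [hit_succ_crys k t M h]; exact ih M
    · rw [hit_succ_not k t M h]
      apply div_nonneg _ (Nat.cast_nonneg _)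
      apply sum_nonneg
      intro i _
      apply div_nonneg _ (Nat.cast_nonneg _)
      exact sum_nonneg (fun j _ => ih _)

theorem hit_le_one (k t : ℕ) : ∀ M : Diag n, hit k t M ≤ 1 := by
  induction t with
  | zero =>
    intro M
    rw [hit_zero]; split_ifs <;> norm_num
  | succ t ih =>
    intro M
    by_cases h : Crys M
    · rw [hit_succ_crys k t M h]; exact ih M
    · rw [hit_succ_not k t M h]
      apply avg_le _ _ zero_le_one
      intro i _
      apply avg_le _ _ zero_le_one
      exact fun j _ => ih _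

theorem swapD_apply (i j : Fin (2 * n)) (M : Diag n) (v) :
    swapD i j M v = Equiv.swap i j (M (Equiv.swap i j v)) := rfl

theorem numShort_move (M : Diag n) {i j : Fin (2 * n)} (hi : i ∈ loose M) :
    numShort M ≤ numShort (move M i j) := by
  unfold move
  split_ifs with hj
  · exact le_rfl
  have hi' : ¬ ShortEnd M i := by simpa [loose] using hi
  apply card_le_card
  intro v hv
  simp only [mem_filter, mem_univ, true_and] at hv ⊢
  have hs : ShortEnd M v := Or.inl hv
  have h1 : v ≠ i := fun h => hi' (h ▸ hs)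
  have h2 : v ≠ j := fun h => hj (h ▸ hs)
  have hs' := shortEnd_partner hs
  have h3 : M v ≠ i := fun h => hi' (h ▸ hs')
  have h4 : M v ≠ j := fun h => hj (h ▸ hs')
  rw [swapD_apply, Equiv.swap_apply_of_ne_of_ne h1 h2, Equiv.swap_apply_of_ne_of_ne h3 h4]
  exact hv

theorem hit_eq_zero (k t : ℕ) : ∀ M : Diag n, k < numShort M → hit k t M = 0 := by
  induction t with
  | zero =>
    intro M hM
    rw [hit_zero, if_neg]
    rintro ⟨_, h⟩; omega
  | succ t ih =>
    intro M hM
    by_cases h : Crys M
    · rw [hit_succ_crys k t M h]; exact ih M hM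
    · rw [hit_succ_not k t M h]
      rw [sum_eq_zero, zero_div]
      intro i hi
      rw [sum_eq_zero, zero_div]
      intro j _
      exact ih _ (hM.trans_le (numShort_move M hi))

/-- Some chord inside `U` has no wall (vertex outside `U`) between its endpoints. -/
def NC (U : Finset (Fin (2 * n))) (M : Diag n) : Prop :=
  ∃ v ∈ U, ∀ z, z ∉ U → ¬ Btw v z (M v)

theorem shortEnd_of_not_mem {U : Finset (Fin (2 * n))} {w N} (hadj : ∀ v, v ∉ U → Adj v (w v))
    {M : Diag n} (hM : M ∈ DD U w N) {v} (hv : v ∉ U) : ShortEnd M v := by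
  unfold ShortEnd
  rw [(mem_DD.mp hM).1 v hv]
  exact hadj v hv

theorem shortEnd_iff {U : Finset (Fin (2 * n))} {w N} (hok : Ok U w)
    (hadj : ∀ v, v ∉ U → Adj v (w v))
    (hN : ∀ v ∈ U, ∀ u ∈ U, Adj v u → (v, u) ∈ N) {M : Diag n} (hM : M ∈ DD U w N) (v) :
    ShortEnd M v ↔ v ∉ U := by
  constructor
  · intro h hv
    have h1 := partner_mem hok hM hv
    exact (mem_DD.mp hM).2 _ (hN v hv _ h1 h) rfl
  · exact shortEnd_of_not_mem hadj hM

theorem crys_iff_NC {U : Finset (Fin (2 * n))} {w N} (hok : Ok U w)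
    (hadj : ∀ v, v ∉ U → Adj v (w v))
    (hN : ∀ v ∈ U, ∀ u ∈ U, Adj v u → (v, u) ∈ N) {M : Diag n} (hM : M ∈ DD U w N) :
    Crys M ↔ ¬ NC U M := by
  rw [crys_iff]
  unfold NC
  push Not
  constructor
  · intro h v hv
    rcases h v with h | ⟨z, hz, hz'⟩
    · exact absurd hv ((shortEnd_iff hok hadj hN hM v).mp h)
    · exact ⟨z, (shortEnd_iff hok hadj hN hM z).mp hz, hz'⟩
  · intro h v
    by_cases hv : v ∈ U
    · obtain ⟨z, hz, hz'⟩ := h v hv
      exact Or.inr ⟨z, (shortEnd_iff hok hadj hN hM z).mpr hz, hz'⟩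
    · exact Or.inl ((shortEnd_iff hok hadj hN hM v).mpr hv)

theorem numShort_ge {U : Finset (Fin (2 * n))} {w N} (hadj : ∀ v, v ∉ U → Adj v (w v))
    {M : Diag n} (hM : M ∈ DD U w N) : 2 * n ≤ U.card + 2 * numShort M := by
  have h1 : (univ \ U) ⊆ (univ.filter (fun v : Fin (2 * n) => (M v).val = v.val + 1)) ∪
      (univ.filter (fun v : Fin (2 * n) => v.val = (M v).val + 1)) := by
    intro v hv
    simp only [mem_sdiff, mem_univ, true_and] at hv
    have := shortEnd_of_not_mem hadj hM hv
    simp only [mem_union, mem_filter, mem_univ, true_and]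
    exact this
  have h2 : (univ.filter (fun v : Fin (2 * n) => v.val = (M v).val + 1)).card ≤
      (univ.filter (fun v : Fin (2 * n) => (M v).val = v.val + 1)).card := by
    apply card_le_card_of_injOn (fun v => M v)
    · intro v hv
      simp only [coe_filter, mem_univ, true_and, Set.mem_ofPred_eq] at hv ⊢
      rw [M.inv]; exact hv
    · intro a _ b _ hab
      have := congrArg M.toFun hab
      simpa [M.inv'] using this
  have h3 := card_le_card h1
  have h4 := card_union_le (univ.filter (fun v : Fin (2 * n) => (M v).val = v.val + 1))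
      (univ.filter (fun v : Fin (2 * n) => v.val = (M v).val + 1))
  have h5 := card_sdiff_add_card_inter (univ : Finset (Fin (2 * n))) U
  rw [univ_inter, card_univ, Fintype.card_fin] at h5
  unfold numShort
  omega

end Pool.Agent.Q185.CD
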